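import Mathlib

set_option autoImplicit false

/-! Independence number of a vertex set, and the finite minimax theorem. -/

set_option linter.unusedSectionVars false

namespace Pool.Agent.H112R3.TA

open Finset

section alpha

variable {V : Type} [Fintype V] [DecidableEq V] (G : SimpleGraph V)

open Classical in
/-- the independence number of the subgraph induced by `W` -/
noncomputable def al (W : Finset V) : ℕ :=
  (W.powerset.filter (fun S : Finset V => G.IsIndepSet (S : Set V))).sup Finset.card

variable {G}

lemma le_al {W S : Finset V} (h : S ⊆ W) (hS : G.IsIndepSet (S : Set V)) : S.card ≤ al G W := by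
  classical
  unfold al
  exact Finset.le_sup (f := Finset.card) (by simp [h, hS])

lemma exists_al (W : Finset V) : ∃ S ⊆ W, G.IsIndepSet (S : Set V) ∧ S.card = al G W := by
  classical
  have hne : (W.powerset.filter (fun S : Finset V => G.IsIndepSet (S : Set V))).Nonempty :=
    ⟨∅, by simp [SimpleGraph.IsIndepSet]⟩
  obtain ⟨S, hS, h⟩ := Finset.exists_mem_eq_sup _ hne Finset.card
  rw [mem_filter, mem_powerset] at hS
  exact ⟨S, hS.1, hS.2, h.symm⟩

lemma al_le_iff {W : Finset V} {c : ℕ} :
    al G W ≤ c ↔ ∀ S ⊆ W, G.IsIndepSet (S : Set V) → S.card ≤ c := by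
  constructor
  · intro h S hS hi
    exact (le_al hS hi).trans h
  · intro h
    obtain ⟨S, hS, hi, hc⟩ := exists_al (G := G) W
    rw [← hc]
    exact h S hS hi

lemma al_mono {W W' : Finset V} (h : W ⊆ W') : al G W ≤ al G W' :=
  al_le_iff.2 fun _ hS hi => le_al (hS.trans h) hi

lemma indep_mono {S T : Finset V} (h : S ⊆ T) (hT : G.IsIndepSet (T : Set V)) :
    G.IsIndepSet (S : Set V) :=
  fun _ hx _ hy hxy => hT (h hx) (h hy) hxy

lemma al_union_le (W W' : Finset V) : al G (W ∪ W') ≤ al G W + al G W' := by
  refine al_le_iff.2 fun S hS hi => ?_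
  have h1 : (S ∩ W).card ≤ al G W := le_al inter_subset_right (indep_mono inter_subset_left hi)
  have h2 : (S ∩ W').card ≤ al G W' := le_al inter_subset_right (indep_mono inter_subset_left hi)
  have h3 : S ⊆ (S ∩ W) ∪ (S ∩ W') := by
    intro x hx
    rcases mem_union.1 (hS hx) with h | h
    · exact mem_union_left _ (mem_inter.2 ⟨hx, h⟩)
    · exact mem_union_right _ (mem_inter.2 ⟨hx, h⟩)
  exact (card_le_card h3).trans ((card_union_le _ _).trans (Nat.add_le_add h1 h2))

lemma al_add_le {W W' U : Finset V} (hW : W ⊆ U) (hW' : W' ⊆ U) (hd : Disjoint W W')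
    (hn : ∀ x ∈ W, ∀ y ∈ W', ¬ G.Adj x y) : al G W + al G W' ≤ al G U := by
  obtain ⟨S, hS, hi, hc⟩ := exists_al (G := G) W
  obtain ⟨S', hS', hi', hc'⟩ := exists_al (G := G) W'
  have hdis : Disjoint S S' := disjoint_of_subset_left hS (disjoint_of_subset_right hS' hd)
  rw [← hc, ← hc', ← card_union_of_disjoint hdis]
  refine le_al (union_subset (hS.trans hW) (hS'.trans hW')) ?_
  intro x hx y hy hxy
  rw [coe_union] at hx hy
  rcases hx with hx | hx <;> rcases hy with hy | hy
  · exact hi hx hy hxy
  · exact hn x (hS hx) y (hS' hy)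
  · exact fun h => hn y (hS hy) x (hS' hx) h.symm
  · exact hi' hx hy hxy

lemma al_le_card (W : Finset V) : al G W ≤ W.card :=
  al_le_iff.2 fun _ hS _ => card_le_card hS

lemma al_singleton (v : V) : al G {v} ≤ 1 := (al_le_card _).trans (by simp)

lemma al_empty : al G (∅ : Finset V) = 0 := Nat.le_zero.1 ((al_le_card _).trans (by simp))

lemma nonempty_of_al_pos {W : Finset V} (h : 0 < al G W) : W.Nonempty := by
  rw [nonempty_iff_ne_empty]
  rintro rfl
  rw [al_empty] at h
  exact lt_irrefl _ h

/-- between `W` and `U` there is a set of every intermediate independence number -/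
lemma exists_al_eq {W U : Finset V} (h : W ⊆ U) {L : ℕ} (h1 : al G W ≤ L) (h2 : L ≤ al G U) :
    ∃ W', W ⊆ W' ∧ W' ⊆ U ∧ al G W' = L := by
  -- induction on the size of `U \ W`
  have key : ∀ n : ℕ, ∀ W : Finset V, (U \ W).card = n → W ⊆ U → al G W ≤ L →
      ∃ W', W ⊆ W' ∧ W' ⊆ U ∧ al G W' = L := by
    intro n
    induction n with
    | zero =>
      intro W hn hW hl
      have : U ⊆ W := by
        rw [card_eq_zero, sdiff_eq_empty_iff_subset] at hn
        exact hn
      exact ⟨W, Subset.rfl, hW, le_antisymm hl (h2.trans (al_mono this))⟩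
    | succ n ih =>
      intro W hn hW hl
      rcases eq_or_lt_of_le hl with he | hlt
      · exact ⟨W, Subset.rfl, hW, he⟩
      · have hne : (U \ W).Nonempty := by
          rw [← card_pos]
          omega
        obtain ⟨v, hv⟩ := hne
        rw [mem_sdiff] at hv
        have hc : (U \ insert v W).card = n := by
          have : U \ insert v W = (U \ W).erase v := by
            ext x
            simp only [mem_sdiff, mem_insert, mem_erase]
            tauto
          rw [this, card_erase_of_mem (mem_sdiff.2 hv), hn]
          rfl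
        have hl' : al G (insert v W) ≤ L := by
          have : insert v W = {v} ∪ W := by rw [insert_eq]
          rw [this]
          have h3 := al_union_le (G := G) {v} W
          have h4 := al_singleton (G := G) v
          omega
        obtain ⟨W', h3, h4, h5⟩ := ih (insert v W) hc (insert_subset hv.1 hW) hl'
        exact ⟨W', (subset_insert _ _).trans h3, h4, h5⟩
  exact key _ W rfl h h1

end alpha

section minimax

/-- finite minimax theorem -/
theorem minimax {I J : Type} [Fintype I] [Fintype J] [Nonempty I] [Nonempty J]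
    (c : I → J → ℝ) (ε : ℝ) :
    (∃ μ : J → ℝ, (∀ j, 0 ≤ μ j) ∧ ∑ j, μ j = 1 ∧ ∀ i, ∑ j, μ j * c i j < ε) ∨
    (∃ l : I → ℝ, (∀ i, 0 ≤ l i) ∧ ∑ i, l i = 1 ∧ ∀ j, ε ≤ ∑ i, l i * c i j) := by
  classical
  let Λ : (I → ℝ) →ₗ[ℝ] (J → ℝ) :=
    { toFun := fun z j => ∑ i, z i * c i j
      map_add' := by
        intro z z'; funext j
        simp only [Pi.add_apply, add_mul, Finset.sum_add_distrib]
      map_smul' := by
        intro t z; funext j
        simp only [Pi.smul_apply, smul_eq_mul, RingHom.id_apply, Finset.mul_sum, mul_assoc] }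
  have hΛ : ∀ z j, Λ z j = ∑ i, z i * c i j := fun z j => rfl
  have hΛc : Continuous Λ := LinearMap.continuous_of_finiteDimensional Λ
  let P : Set (J → ℝ) := {y | ∀ j, ε ≤ y j}
  have hPv : Convex ℝ P := by
    intro y hy y' hy' a b ha hb hab j
    have h1 := hy j
    have h2 := hy' j
    simp only [Pi.add_apply, Pi.smul_apply, smul_eq_mul]
    calc ε = a * ε + b * ε := by rw [← add_mul, hab, one_mul]
      _ ≤ a * y j + b * y' j := add_le_add (mul_le_mul_of_nonneg_left h1 ha)
          (mul_le_mul_of_nonneg_left h2 hb)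
  have hPc : IsClosed P := by
    have : P = ⋂ j, {y : J → ℝ | ε ≤ y j} := by ext y; simp [P]
    rw [this]
    exact isClosed_iInter fun j => isClosed_le continuous_const (continuous_apply j)
  by_cases hd : Disjoint (Λ '' (stdSimplex ℝ I)) P
  · left
    obtain ⟨f, u, v, hf1, huv, hf2⟩ := geometric_hahn_banach_compact_closed
      ((convex_stdSimplex ℝ I).linear_image Λ) ((isCompact_stdSimplex ℝ I).image hΛc) hPv hPc hd
    let a : J → ℝ := fun j => f (Pi.single j 1)
    have hf : ∀ y : J → ℝ, f y = ∑ j, y j * a j := by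
      intro y
      have h1 : y = ∑ j, y j • (Pi.single j (1 : ℝ) : J → ℝ) := by
        funext j
        simp only [Finset.sum_apply, Pi.smul_apply, smul_eq_mul]
        rw [Finset.sum_eq_single j]
        · simp
        · intro b _ hb
          rw [Pi.single_eq_of_ne hb.symm, mul_zero]
        · intro hj; exact absurd (Finset.mem_univ j) hj
      conv_lhs => rw [h1]
      rw [map_sum]
      apply Finset.sum_congr rfl
      intro i _
      rw [map_smul, smul_eq_mul]
    have hεP : (fun _ => ε : J → ℝ) ∈ P := fun j => le_rfl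
    have ha : ∀ j, 0 ≤ a j := by
      intro j
      by_contra hcon
      push Not at hcon
      -- move far in direction `j`
      have hmem : ∀ t : ℝ, 0 ≤ t → (fun i => ε + t * (Pi.single j (1 : ℝ) : J → ℝ) i) ∈ P := by
        intro t ht i
        by_cases hij : i = j
        · subst hij
          simp only [Pi.single_eq_same, mul_one]
          linarith
        · simp [Pi.single_eq_of_ne hij]
      have hval : ∀ t : ℝ, f (fun i => ε + t * (Pi.single j (1 : ℝ) : J → ℝ) i) =
          f (fun _ => ε) + t * a j := by
        intro t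
        have : (fun i => ε + t * (Pi.single j (1 : ℝ) : J → ℝ) i) =
            (fun _ => ε) + t • (Pi.single j (1 : ℝ) : J → ℝ) := by
          funext i
          simp
        rw [this, map_add, map_smul, smul_eq_mul]
      have h0 := hf2 _ hεP
      set F := f (fun _ => ε) with hF
      have ht : 0 ≤ (F - v) / (-a j) := div_nonneg (by linarith) (by linarith)
      have h1 := hf2 _ (hmem _ ht)
      rw [hval] at h1
      have h2 : (F - v) / (-a j) * a j = -(F - v) := by
        have : a j ≠ 0 := hcon.ne
        field_simp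
      rw [h2] at h1
      linarith
    have hsum : 0 < ∑ j, a j := by
      refine lt_of_le_of_ne (Finset.sum_nonneg fun j _ => ha j) ?_
      intro h0
      have hz : ∀ j, a j = 0 := by
        intro j
        exact (Finset.sum_eq_zero_iff_of_nonneg (fun j _ => ha j)).1 h0.symm j (Finset.mem_univ j)
      have hf0 : ∀ y, f y = 0 := by
        intro y
        rw [hf]
        simp [hz]
      obtain ⟨i⟩ := (inferInstance : Nonempty I)
      have h1 := hf1 (Λ (Pi.single i 1)) ⟨_, single_mem_stdSimplex ℝ i, rfl⟩
      have h2 := hf2 _ hεP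
      rw [hf0] at h1 h2
      linarith
    refine ⟨fun j => a j / ∑ j, a j, fun j => div_nonneg (ha j) hsum.le, ?_, ?_⟩
    · rw [← Finset.sum_div, div_self hsum.ne']
    · intro i
      have h1 := hf1 (Λ (Pi.single i 1)) ⟨_, single_mem_stdSimplex ℝ i, rfl⟩
      have h2 := hf2 _ hεP
      rw [hf] at h1 h2
      have h3 : ∀ j, Λ (Pi.single i 1) j = c i j := by
        intro j
        rw [hΛ, Finset.sum_eq_single i]
        · simp
        · intro b _ hb
          rw [Pi.single_eq_of_ne hb, zero_mul]
        · intro hj; exact absurd (Finset.mem_univ i) hj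
      simp only [h3] at h1
      have h4 : ∑ j, a j / (∑ j, a j) * c i j = (∑ j, c i j * a j) / ∑ j, a j := by
        rw [Finset.sum_div]
        apply Finset.sum_congr rfl
        intro j _
        ring
      rw [h4, div_lt_iff₀ hsum]
      rw [← Finset.mul_sum] at h2
      linarith
  · right
    rw [Set.not_disjoint_iff] at hd
    obtain ⟨y, ⟨l, hl, rfl⟩, hy⟩ := hd
    exact ⟨l, hl.1, hl.2, fun j => hy j⟩

end minimax

end Pool.Agent.H112R3.TA
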