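import Pool.Agent.H112R3.TA.KF

/-! Hitting measures. -/

set_option autoImplicit false
set_option linter.unusedSectionVars false

namespace Pool.Agent.H112R3.TA

open Finset

variable {V : Type} [Fintype V] [DecidableEq V] {G : SimpleGraph V}
variable {Ω : Type} [Fintype Ω]

open Classical in
/-- the measure of the set of all `ω` such that `p ω` meets `Q` -/
noncomputable def hit (μ : Ω → ℝ) (p : Ω → Finset V) (Q : Finset V) : ℝ :=
  ∑ ω ∈ univ.filter (fun ω => (p ω ∩ Q).Nonempty), μ ω

lemma hit_eq (μ : Ω → ℝ) (p : Ω → Finset V) (Q : Finset V)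
    [DecidablePred (fun ω => (p ω ∩ Q).Nonempty)] :
    hit μ p Q = ∑ ω, if (p ω ∩ Q).Nonempty then μ ω else 0 := by
  unfold hit
  rw [Finset.sum_filter]
  apply Finset.sum_congr rfl
  intro ω _
  congr

lemma hit_union (μ : Ω → ℝ) (hμ : ∀ ω, 0 ≤ μ ω) (p : Ω → Finset V) (Q Q' : Finset V) :
    hit μ p (Q ∪ Q') ≤ hit μ p Q + hit μ p Q' := by
  classical
  rw [hit_eq, hit_eq, hit_eq, ← Finset.sum_add_distrib]
  apply Finset.sum_le_sum
  intro ω _
  have h0 := hμ ω
  by_cases h1 : (p ω ∩ Q).Nonempty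
  · rw [if_pos h1]
    split_ifs <;> linarith
  · by_cases h2 : (p ω ∩ Q').Nonempty
    · rw [if_pos h2]
      split_ifs <;> linarith
    · rw [if_neg h1, if_neg h2, if_neg]
      · simp
      · rw [not_nonempty_iff_eq_empty] at h1 h2 ⊢
        rw [inter_union_distrib_left, h1, h2, union_empty]

lemma hit_cnb (μ : Ω → ℝ) (hμ : ∀ ω, 0 ≤ μ ω) (p : Ω → Finset V) (u : V) :
    hit μ p (cnb G u) ≤ deg G μ p u := by
  classical
  rw [hit_eq]
  unfold deg
  apply Finset.sum_le_sum
  intro ω _
  have h0 := hμ ω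
  split_ifs with h
  · have : 1 ≤ ((p ω ∩ cnb G u).card : ℝ) := by
      exact_mod_cast card_pos.2 h
    nlinarith
  · positivity

lemma hit_biUnion (μ : Ω → ℝ) (hμ : ∀ ω, 0 ≤ μ ω) (p : Ω → Finset V) (U : Finset V) (η : ℝ)
    (hU : ∀ u ∈ U, deg G μ p u ≤ η) : hit μ p (U.biUnion (cnb G)) ≤ U.card * η := by
  classical
  induction U using Finset.induction_on with
  | empty =>
    simp [hit]
  | @insert a s ha ih =>
    rw [biUnion_insert, card_insert_of_notMem ha]
    have h1 := hit_union μ hμ p (cnb G a) (s.biUnion (cnb G))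
    have h2 := hit_cnb (G := G) μ hμ p a
    have h3 := hU a (mem_insert_self _ _)
    have h4 := ih (fun u hu => hU u (mem_insert_of_mem hu))
    push_cast
    linarith

lemma hit_all (μ : Ω → ℝ) (p : Ω → Finset V) (Q : Finset V)
    (h : ∀ ω, (p ω ∩ Q).Nonempty) : hit μ p Q = ∑ ω, μ ω := by
  unfold hit
  rw [Finset.filter_true_of_mem (fun ω _ => h ω)]

/-- greedy choice of pairwise anticomplete members -/
theorem greedy {μ : Ω → ℝ} (hμ : ∀ ω, 0 ≤ μ ω) (hμ1 : ∑ ω, μ ω = 1) (p : Ω → Finset V)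
    {n M : ℕ} {ε η : ℝ} (hp : ∀ ω, (p ω).card ≤ n) (hη : 0 ≤ η) (Z : Finset V)
    (hZ : hit μ p Z ≤ ε) (hZ' : ∀ u, u ∉ Z → deg G μ p u ≤ η) (hM : ε + M * n * η < 1) :
    ∃ e : ℕ → Ω, ∀ i < M, p (e i) ∩ Z = ∅ ∧ ∀ j < i, ∀ x ∈ p (e i), ∀ u ∈ p (e j),
      ¬ (G.Adj u x ∨ u = x) := by
  classical
  have key : ∀ r : ℕ, r ≤ M → ∃ e : ℕ → Ω, ∀ i < r, p (e i) ∩ Z = ∅ ∧ ∀ j < i,
      ∀ x ∈ p (e i), ∀ u ∈ p (e j), ¬ (G.Adj u x ∨ u = x) := by
    intro r
    induction r with
    | zero =>
      intro _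
      have : Nonempty Ω := by
        by_contra hne
        rw [not_nonempty_iff] at hne
        simp at hμ1
      obtain ⟨ω⟩ := this
      exact ⟨fun _ => ω, fun i hi => absurd hi (Nat.not_lt_zero i)⟩
    | succ r ih =>
      intro hr
      obtain ⟨e, he⟩ := ih (by omega)
      let U : Finset V := (range r).biUnion (fun i => p (e i))
      have hUc : (U.card : ℝ) ≤ M * n := by
        have h1 : U.card ≤ r * n := by
          refine (card_biUnion_le).trans ?_
          calc ∑ i ∈ range r, (p (e i)).card ≤ ∑ i ∈ range r, n :=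
                Finset.sum_le_sum fun i _ => hp _
            _ = r * n := by simp
        have h2 : U.card ≤ M * n := h1.trans (Nat.mul_le_mul_right _ (by omega))
        exact_mod_cast h2
      have hUZ : ∀ u ∈ U, deg G μ p u ≤ η := by
        intro u hu
        rw [mem_biUnion] at hu
        obtain ⟨i, hi, hui⟩ := hu
        apply hZ'
        intro huZ
        have := (he i (mem_range.1 hi)).1
        exact Finset.notMem_empty u (this ▸ mem_inter.2 ⟨hui, huZ⟩)
      have h1 := hit_union μ hμ p Z (U.biUnion (cnb G))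
      have h2 := hit_biUnion (G := G) μ hμ p U η hUZ
      have h3 : hit μ p (Z ∪ U.biUnion (cnb G)) < 1 := by
        have : (U.card : ℝ) * η ≤ M * n * η := mul_le_mul_of_nonneg_right hUc hη
        linarith
      have h4 : ∃ ω, ¬ (p ω ∩ (Z ∪ U.biUnion (cnb G))).Nonempty := by
        by_contra hcon
        push Not at hcon
        rw [hit_all μ p _ hcon, hμ1] at h3
        exact lt_irrefl _ h3
      obtain ⟨ω, hω⟩ := h4
      refine ⟨Function.update e r ω, ?_⟩
      intro i hi
      rcases Nat.lt_succ_iff_lt_or_eq.1 hi with h | h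
      · rw [Function.update_of_ne h.ne]
        refine ⟨(he i h).1, fun j hj => ?_⟩
        rw [Function.update_of_ne (by omega)]
        exact (he i h).2 j hj
      · subst h
        rw [Function.update_self]
        constructor
        · rw [← not_nonempty_iff_eq_empty]
          rintro ⟨x, hx⟩
          rw [mem_inter] at hx
          exact hω ⟨x, mem_inter.2 ⟨hx.1, mem_union_left _ hx.2⟩⟩
        · intro j hj x hx u hu
          rw [Function.update_of_ne (by omega)] at hu
          intro hux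
          refine hω ⟨x, mem_inter.2 ⟨hx, mem_union_right _ ?_⟩⟩
          rw [mem_biUnion]
          refine ⟨u, ?_, mem_cnb.2 hux⟩
          rw [mem_biUnion]
          exact ⟨j, mem_range.2 hj, hu⟩
  exact key M le_rfl

end Pool.Agent.H112R3.TA
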