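import Pool.Agent.H112R3.TA.TreeDec

/-! Consequences of the absence of induced balanced bicliques. -/

set_option autoImplicit false
set_option linter.unusedSectionVars false

namespace Pool.Agent.H112R3.TA

open Finset

variable {V : Type} [Fintype V] [DecidableEq V]

/-- no induced `K_{t,t}` -/
def KF (G : SimpleGraph V) (t : ℕ) : Prop :=
  ∀ X Y : Finset V, X.card = t → Y.card = t → G.IsIndepSet (X : Set V) →
    G.IsIndepSet (Y : Set V) → (∀ x ∈ X, ∀ y ∈ Y, G.Adj x y) → False

variable {G : SimpleGraph V}

open Classical in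
/-- common neighbourhood -/
noncomputable def com (G : SimpleGraph V) (X : Finset V) : Finset V :=
  univ.filter (fun y => ∀ x ∈ X, G.Adj x y)

lemma al_com_lt {t : ℕ} (h : KF G t) {X : Finset V} (hX : X.card = t)
    (hi : G.IsIndepSet (X : Set V)) : al G (com G X) < t := by
  by_contra hcon
  push Not at hcon
  obtain ⟨J, hJ, hJi, hJc⟩ := exists_al (G := G) (com G X)
  obtain ⟨J', hJ', hJc'⟩ := exists_subset_card_eq (hcon.trans hJc.symm.le)
  refine h X J' hX hJc' hi (indep_mono hJ' hJi) ?_
  intro x hx y hy
  have := hJ (hJ' hy)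
  classical
  unfold com at this
  exact (mem_filter.1 this).2 x hx

open Classical in
/-- closed neighbourhood -/
noncomputable def cnb (G : SimpleGraph V) (u : V) : Finset V :=
  univ.filter (fun x => G.Adj u x ∨ u = x)

lemma mem_cnb {u x : V} : x ∈ cnb G u ↔ G.Adj u x ∨ u = x := by
  unfold cnb
  simp

open Classical in
/-- expected number of vertices of `p ω` in the closed neighbourhood of `u` -/
noncomputable def deg {Ω : Type} [Fintype Ω] (G : SimpleGraph V) (μ : Ω → ℝ) (p : Ω → Finset V)
    (u : V) : ℝ := ∑ ω, μ ω * ((p ω ∩ cnb G u).card : ℝ)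

/-- vertices of large degree form a set of small independence number -/
theorem al_high_lt {Ω : Type} [Fintype Ω] {t k n N : ℕ} {ε η : ℝ} (h : KF G t) (ht : 1 ≤ t)
    (htk : t ≤ k + 1) (μ : Ω → ℝ) (hμ : ∀ ω, 0 ≤ μ ω) (hμ1 : ∑ ω, μ ω ≤ 1)
    (p : Ω → Finset V) (hp : ∀ ω, (p ω).card ≤ n)
    (hS : ∀ S : Finset V, al G S ≤ k →
      ∑ ω ∈ univ.filter (fun ω => (p ω ∩ S).Nonempty), μ ω ≤ ε)
    (hN : (n : ℝ) * t + n * N * 2 ^ N * ε < N * η)
    (Z : Finset V) (hZ : ∀ u ∈ Z, η ≤ deg G μ p u) : al G Z < N := by
  classical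
  by_contra hcon
  push Not at hcon
  obtain ⟨I₀, hI₀, hI₀i, hI₀c⟩ := exists_al (G := G) Z
  obtain ⟨I, hI, hIc⟩ := exists_subset_card_eq (hcon.trans hI₀c.symm.le)
  have hIi : G.IsIndepSet (I : Set V) := indep_mono hI hI₀i
  have h1 : (N : ℝ) * η ≤ ∑ u ∈ I, deg G μ p u := by
    rw [← hIc, ← nsmul_eq_mul]
    exact Finset.card_nsmul_le_sum _ _ _ (fun u hu => hZ u (hI₀ (hI hu)))
  have h2 : ∑ u ∈ I, deg G μ p u =
      ∑ ω, μ ω * ∑ x ∈ p ω, ((I.filter (fun u => x ∈ cnb G u)).card : ℝ) := by
    unfold deg
    rw [Finset.sum_comm]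
    apply Finset.sum_congr rfl
    intro ω _
    rw [← Finset.mul_sum]
    congr 1
    have h3 : ∀ u, ((p ω ∩ cnb G u).card : ℝ) = ∑ x ∈ p ω, if x ∈ cnb G u then 1 else 0 := by
      intro u
      rw [← Finset.sum_filter, Finset.sum_const, nsmul_eq_mul, mul_one]
      congr 2
    have h4 : ∀ x, ((I.filter (fun u => x ∈ cnb G u)).card : ℝ) =
        ∑ u ∈ I, if x ∈ cnb G u then 1 else 0 := by
      intro x
      rw [← Finset.sum_filter, Finset.sum_const, nsmul_eq_mul, mul_one]
    simp_rw [h3, h4]
    rw [Finset.sum_comm]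
  -- the bad vertices
  let T : Finset (Finset V) := I.powersetCard t
  have hcount : ∀ x, (∀ X ∈ T, x ∉ com G X) → ((I.filter (fun u => x ∈ cnb G u)).card) ≤ t := by
    intro x hx
    by_cases hxI : x ∈ I
    · have : I.filter (fun u => x ∈ cnb G u) ⊆ {x} := by
        intro u hu
        rw [mem_filter, mem_cnb] at hu
        rw [mem_singleton]
        rcases hu.2 with h5 | h5
        · by_contra hne
          exact hIi hu.1 hxI hne h5
        · exact h5
      exact (card_le_card this).trans (by simpa using ht)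
    · by_contra hgt
      push Not at hgt
      obtain ⟨X, hX, hXc⟩ := exists_subset_card_eq hgt.le
      refine hx X ?_ ?_
      · rw [mem_powersetCard]
        exact ⟨hX.trans (filter_subset _ _), hXc⟩
      · unfold com
        rw [mem_filter]
        refine ⟨mem_univ _, fun u hu => ?_⟩
        have h5 := hX hu
        rw [mem_filter, mem_cnb] at h5
        rcases h5.2 with h6 | h6
        · exact h6
        · exact absurd (h6 ▸ h5.1) hxI
  have hω : ∀ ω, ∑ x ∈ p ω, ((I.filter (fun u => x ∈ cnb G u)).card : ℝ) ≤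
      n * t + n * N * ∑ X ∈ T, (if (p ω ∩ com G X).Nonempty then (1 : ℝ) else 0) := by
    intro ω
    by_cases hbad : ∃ X ∈ T, (p ω ∩ com G X).Nonempty
    · obtain ⟨X, hX, hne⟩ := hbad
      have h5 : (1 : ℝ) ≤ ∑ X ∈ T, (if (p ω ∩ com G X).Nonempty then (1 : ℝ) else 0) := by
        have := Finset.single_le_sum (f := fun X => if (p ω ∩ com G X).Nonempty then (1 : ℝ) else 0)
          (fun X _ => by split_ifs <;> norm_num) hX
        simpa [hne] using this
      have h6 : ∑ x ∈ p ω, ((I.filter (fun u => x ∈ cnb G u)).card : ℝ) ≤ n * N := by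
        calc ∑ x ∈ p ω, ((I.filter (fun u => x ∈ cnb G u)).card : ℝ)
            ≤ ∑ x ∈ p ω, (N : ℝ) := by
              apply Finset.sum_le_sum
              intro x _
              rw [← hIc]
              exact_mod_cast card_filter_le _ _
          _ = (p ω).card * N := by rw [Finset.sum_const, nsmul_eq_mul]
          _ ≤ n * N := by
              apply mul_le_mul_of_nonneg_right _ (Nat.cast_nonneg _)
              exact_mod_cast hp ω
      have h7 : (0 : ℝ) ≤ n * N := by positivity
      have h8 : (0 : ℝ) ≤ n * t := by positivity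
      nlinarith
    · push Not at hbad
      have h5 : ∑ x ∈ p ω, ((I.filter (fun u => x ∈ cnb G u)).card : ℝ) ≤ n * t := by
        calc ∑ x ∈ p ω, ((I.filter (fun u => x ∈ cnb G u)).card : ℝ)
            ≤ ∑ x ∈ p ω, (t : ℝ) := by
              apply Finset.sum_le_sum
              intro x hx
              have := hcount x (fun X hX hxX => by
                have h6 := hbad X hX
                exact Finset.notMem_empty x (h6 ▸ mem_inter.2 ⟨hx, hxX⟩))
              exact_mod_cast this
          _ = (p ω).card * t := by rw [Finset.sum_const, nsmul_eq_mul]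
          _ ≤ n * t := by
              apply mul_le_mul_of_nonneg_right _ (Nat.cast_nonneg _)
              exact_mod_cast hp ω
      have h6 : (0 : ℝ) ≤ n * N * ∑ X ∈ T, (if (p ω ∩ com G X).Nonempty then (1 : ℝ) else 0) := by
        apply mul_nonneg (by positivity)
        apply Finset.sum_nonneg
        intro X _
        split_ifs <;> norm_num
      linarith
  have h3 : ∑ u ∈ I, deg G μ p u ≤ n * t + n * N * 2 ^ N * ε := by
    rw [h2]
    calc ∑ ω, μ ω * ∑ x ∈ p ω, ((I.filter (fun u => x ∈ cnb G u)).card : ℝ)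
        ≤ ∑ ω, μ ω * (n * t + n * N * ∑ X ∈ T,
            (if (p ω ∩ com G X).Nonempty then (1 : ℝ) else 0)) :=
          Finset.sum_le_sum fun ω _ => mul_le_mul_of_nonneg_left (hω ω) (hμ ω)
      _ = (∑ ω, μ ω) * (n * t) + n * N * ∑ X ∈ T, ∑ ω,
            (if (p ω ∩ com G X).Nonempty then μ ω else 0) := by
          rw [Finset.sum_comm, Finset.mul_sum, Finset.sum_mul, ← Finset.sum_add_distrib]
          apply Finset.sum_congr rfl
          intro ω _
          rw [mul_add, Finset.mul_sum, Finset.mul_sum, Finset.mul_sum]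
          congr 1
          apply Finset.sum_congr rfl
          intro X _
          split_ifs <;> ring
      _ ≤ 1 * (n * t) + n * N * ∑ X ∈ T, ε := by
          apply add_le_add
          · exact mul_le_mul_of_nonneg_right hμ1 (by positivity)
          · apply mul_le_mul_of_nonneg_left _ (by positivity)
            apply Finset.sum_le_sum
            intro X hX
            rw [← Finset.sum_filter]
            rw [mem_powersetCard] at hX
            have := al_com_lt h hX.2 (indep_mono hX.1 hIi)
            exact hS _ (by omega)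
      _ ≤ n * t + n * N * 2 ^ N * ε := by
          rw [Finset.sum_const, nsmul_eq_mul, one_mul]
          have hε : 0 ≤ ε := by
            refine le_trans ?_ (hS ∅ (by rw [al_empty]; exact Nat.zero_le _))
            exact Finset.sum_nonneg fun ω _ => hμ ω
          have hT : (T.card : ℝ) ≤ 2 ^ N := by
            rw [card_powersetCard, hIc]
            exact_mod_cast Nat.choose_le_two_pow N t
          have : (n : ℝ) * N * (T.card * ε) ≤ n * N * 2 ^ N * ε := by
            have h9 : (0 : ℝ) ≤ n * N * ε := by positivity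
            nlinarith
          linarith
  linarith

/-- rounding of a fractional combination of sets of small independence number -/
theorem round_al {I : Type} [Fintype I] {k : ℕ} (l : I → ℝ) (hl : ∀ i, 0 ≤ l i)
    (hl1 : ∑ i, l i = 1) (F : I → Finset V) (hF : ∀ i, al G (F i) ≤ k) (δ : ℝ)
    (S : Finset V) (hS : ∀ v ∈ S, δ ≤ ∑ i ∈ univ.filter (fun i => v ∈ F i), l i) :
    (al G S : ℝ) * δ ≤ k := by
  classical
  obtain ⟨J, hJ, hJi, hJc⟩ := exists_al (G := G) S
  rw [← hJc]
  calc (J.card : ℝ) * δ ≤ ∑ v ∈ J, ∑ i ∈ univ.filter (fun i => v ∈ F i), l i := by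
        rw [← nsmul_eq_mul]
        exact Finset.card_nsmul_le_sum _ _ _ (fun v hv => hS v (hJ hv))
    _ = ∑ i, l i * ((J ∩ F i).card : ℝ) := by
        simp_rw [Finset.sum_filter]
        rw [Finset.sum_comm]
        apply Finset.sum_congr rfl
        intro i _
        rw [← Finset.sum_filter, Finset.sum_const, nsmul_eq_mul, mul_comm]
        congr 2
    _ ≤ ∑ i, l i * k := by
        apply Finset.sum_le_sum
        intro i _
        apply mul_le_mul_of_nonneg_left _ (hl i)
        have : (J ∩ F i).card ≤ al G (F i) :=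
          le_al inter_subset_right (indep_mono inter_subset_left hJi)
        exact_mod_cast this.trans (hF i)
    _ = k := by rw [← Finset.sum_mul, hl1, one_mul]

end Pool.Agent.H112R3.TA
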