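import Pool.Agent.H112R3.TA.Hit

/-! Short linking sets in graphs without long induced paths; Gyarfas paths. -/

set_option autoImplicit false
set_option linter.unusedSectionVars false

namespace Pool.Agent.H112R3.TA

open Finset

variable {V : Type} [Fintype V] [DecidableEq V] {G : SimpleGraph V}

/-- the graph `G` with the vertices of `Q` isolated -/
def del (G : SimpleGraph V) (Q : Finset V) : SimpleGraph V where
  Adj a b := G.Adj a b ∧ a ∉ Q ∧ b ∉ Q
  symm := ⟨fun _ _ h => ⟨h.1.symm, h.2.2, h.2.1⟩⟩
  loopless := ⟨fun _ h => G.loopless.irrefl _ h.1⟩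

/-- no induced path on `n` vertices -/
def NP (G : SimpleGraph V) (n : ℕ) : Prop :=
  ¬ ∃ f : ℕ → V, ∀ i j, i < j → j < n → (G.Adj (f i) (f j) ↔ j = i + 1) ∧ f i ≠ f j

lemma del_mono {Q Q' : Finset V} (h : Q ⊆ Q') : del G Q' ≤ del G Q :=
  fun _ _ hab => ⟨hab.1, fun hx => hab.2.1 (h hx), fun hx => hab.2.2 (h hx)⟩

lemma reach_not_mem {Q : Finset V} {x y : V} (h : (del G Q).Reachable x y) (hx : x ∉ Q) :
    y ∉ Q := by
  obtain ⟨p⟩ := h
  induction p with
  | nil => exact hx
  | cons hadj _ ih => exact ih hadj.2.2

lemma support_reach {H : SimpleGraph V} {x y : V} (p : H.Walk x y) (z : V) (hz : z ∈ p.support) :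
    H.Reachable x z := ⟨p.takeUntil z hz⟩

lemma reach_in_support {Q P : Finset V} {x y : V} (p : (del G Q).Walk x y)
    (hP : ∀ z ∈ p.support, z ∈ P) : (del G (univ \ P)).Reachable x y := by
  induction p with
  | nil => exact SimpleGraph.Reachable.refl _
  | @cons u v w hadj q ih =>
    have h1 : u ∈ P := hP u (by simp)
    have h2 : v ∈ P := hP v (by simp [SimpleGraph.Walk.support_cons])
    have h3 : (del G (univ \ P)).Adj u v := ⟨hadj.1, by simp [h1], by simp [h2]⟩
    refine h3.reachable.trans (ih ?_)
    intro z hz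
    exact hP z (by rw [SimpleGraph.Walk.support_cons]; exact List.mem_cons_of_mem _ hz)

/-- `P` links `x` and `y` -/
def Links (G : SimpleGraph V) (P : Finset V) (x y : V) : Prop :=
  x ∈ P ∧ y ∈ P ∧ (del G (univ \ P)).Reachable x y

lemma Links.reach {P Q : Finset V} {x y : V} (h : Links G P x y) (hPQ : P ∩ Q = ∅) :
    x ∉ Q ∧ (del G Q).Reachable x y := by
  refine ⟨fun hx => Finset.notMem_empty x (hPQ ▸ mem_inter.2 ⟨h.1, hx⟩), ?_⟩
  refine h.2.2.mono (del_mono ?_)
  intro z hz
  rw [mem_sdiff]
  exact ⟨mem_univ _, fun hzP => Finset.notMem_empty z (hPQ ▸ mem_inter.2 ⟨hzP, hz⟩)⟩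

lemma getVert_dist {H : SimpleGraph V} {x y : V} (p : H.Walk x y) (hp : p.length = H.dist x y)
    (i : ℕ) (hi : i ≤ p.length) : H.dist x (p.getVert i) = i := by
  have h1 : H.dist x (p.getVert i) ≤ i := by
    have := SimpleGraph.dist_le (p.take i)
    rw [SimpleGraph.Walk.take_length] at this
    omega
  have h2 : H.dist x y ≤ H.dist x (p.getVert i) + H.dist (p.getVert i) y :=
    (SimpleGraph.Reachable.dist_triangle_left ⟨p.take i⟩ y)
  have h3 : H.dist (p.getVert i) y ≤ p.length - i := by
    have := SimpleGraph.dist_le (p.drop i)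
    rwa [SimpleGraph.Walk.drop_length] at this
  omega

/-- short linking sets avoiding `Q` -/
theorem exists_short {n : ℕ} (hn : NP G n) {Q : Finset V} {x y : V} (hx : x ∉ Q)
    (h : (del G Q).Reachable x y) :
    ∃ P : Finset V, Links G P x y ∧ P.card ≤ n ∧ P ∩ Q = ∅ := by
  classical
  obtain ⟨p, hp⟩ := h.exists_walk_length_eq_dist
  have hlen : p.length + 1 ≤ n := by
    by_contra hcon
    push Not at hcon
    apply hn
    refine ⟨p.getVert, ?_⟩
    intro i j hij hj
    have di := getVert_dist p hp i (by omega)
    have dj := getVert_dist p hp j (by omega)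
    have ri : p.getVert i ∉ Q := reach_not_mem ⟨p.take i⟩ hx
    have rj : p.getVert j ∉ Q := reach_not_mem ⟨p.take j⟩ hx
    refine ⟨⟨fun hadj => ?_, fun hji => ?_⟩, fun heq => ?_⟩
    · have hadj' : (del G Q).Adj (p.getVert i) (p.getVert j) := ⟨hadj, ri, rj⟩
      have h1 : (del G Q).dist x (p.getVert j) ≤
          (del G Q).dist x (p.getVert i) + (del G Q).dist (p.getVert i) (p.getVert j) :=
        SimpleGraph.Reachable.dist_triangle_left ⟨p.take i⟩ _
      have h2 : (del G Q).dist (p.getVert i) (p.getVert j) = 1 :=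
        SimpleGraph.dist_eq_one_iff_adj.2 hadj'
      omega
    · subst hji
      exact (p.adj_getVert_succ (by omega)).1
    · rw [heq] at di
      omega
  refine ⟨p.support.toFinset, ⟨?_, ?_, ?_⟩, ?_, ?_⟩
  · simp
  · simp
  · exact reach_in_support p (fun z hz => by simpa using hz)
  · refine (List.toFinset_card_le _).trans ?_
    rw [SimpleGraph.Walk.length_support]
    exact hlen
  · rw [← not_nonempty_iff_eq_empty]
    rintro ⟨z, hz⟩
    rw [mem_inter, List.mem_toFinset] at hz
    exact reach_not_mem (support_reach p z hz.1) hx hz.2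

/-- an edge entering a set along a walk -/
lemma exists_cross {H : SimpleGraph V} {C : Set V} {z a : V} (h : H.Reachable z a) (hz : z ∉ C)
    (ha : a ∈ C) : ∃ x y, H.Adj x y ∧ x ∉ C ∧ y ∈ C ∧ H.Reachable z x := by
  obtain ⟨p⟩ := h
  induction p with
  | nil => exact absurd ha hz
  | @cons u v w hadj q ih =>
    by_cases hv : v ∈ C
    · exact ⟨u, v, hadj, hz, hv, SimpleGraph.Reachable.refl _⟩
    · obtain ⟨x, y, h1, h2, h3, h4⟩ := ih hv ha
      exact ⟨x, y, h1, h2, h3, hadj.reachable.trans h4⟩

open Classical in
/-- the component of `s` -/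
noncomputable def comp (G : SimpleGraph V) (Q : Finset V) (s : V) : Finset V :=
  univ.filter (fun y => (del G Q).Reachable s y)

lemma mem_comp {Q : Finset V} {s y : V} : y ∈ comp G Q s ↔ (del G Q).Reachable s y := by
  classical
  unfold comp
  simp

/-- Gyarfas path argument -/
theorem gyarfas {n : ℕ} (Z I : Finset V)
    (hbig : ∀ U : Finset V, U.card ≤ n → (∀ u ∈ U, u ∉ Z) →
      ∃ s, s ∉ Z ∪ U.biUnion (cnb G) ∧ I.card < 2 * (I ∩ comp G (Z ∪ U.biUnion (cnb G)) s).card) :
    ¬ NP G (n + 1) := by
  classical
  have key : ∀ r : ℕ, r ≤ n → ∃ (f : ℕ → V) (s : V), (∀ i ≤ r, f i ∉ Z) ∧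
      (∀ i j, i < j → j ≤ r → (G.Adj (f i) (f j) ↔ j = i + 1) ∧ f i ≠ f j) ∧
      s ∉ Z ∪ ((range r).image f).biUnion (cnb G) ∧
      I.card < 2 * (I ∩ comp G (Z ∪ ((range r).image f).biUnion (cnb G)) s).card ∧
      ∃ z, (del G (Z ∪ ((range r).image f).biUnion (cnb G))).Reachable s z ∧ z ∈ cnb G (f r) := by
    intro r
    induction r with
    | zero =>
      intro _
      obtain ⟨s, hs, hs'⟩ := hbig ∅ (by simp) (by simp)
      refine ⟨fun _ => s, s, ?_, ?_, ?_, ?_, s, SimpleGraph.Reachable.refl _, ?_⟩
      · intro i _ h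
        exact hs (mem_union_left _ h)
      · intro i j hij hj
        omega
      · simpa using hs
      · simpa using hs'
      · rw [mem_cnb]; right; rfl
    | succ r ih =>
      intro hr
      obtain ⟨f, s, hfZ, hind, hs, hbigs, z, hz, hzf⟩ := ih (by omega)
      set Q := Z ∪ ((range r).image f).biUnion (cnb G) with hQ
      obtain ⟨s', hs', hbigs'⟩ := hbig ((range (r + 1)).image f)
        ((card_image_le).trans (by simpa using hr)) (by
          intro u hu
          rw [mem_image] at hu
          obtain ⟨i, hi, rfl⟩ := hu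
          exact hfZ i (by rw [mem_range] at hi; omega))
      set Q' := Z ∪ ((range (r + 1)).image f).biUnion (cnb G) with hQ'
      have hQQ' : Q ⊆ Q' := by
        rw [hQ, hQ']
        apply union_subset_union_right
        apply biUnion_subset_biUnion_of_subset_left
        exact image_subset_image (range_subset_range.2 (by omega))
      have hQ'mem : ∀ x, x ∈ Q' → x ∈ Q ∨ x ∈ cnb G (f r) := by
        intro x hx
        rw [hQ', mem_union, mem_biUnion] at hx
        rcases hx with h | ⟨u, hu, hxu⟩
        · left; rw [hQ]; exact mem_union_left _ h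
        · rw [mem_image] at hu
          obtain ⟨i, hi, rfl⟩ := hu
          rw [mem_range] at hi
          rcases Nat.lt_succ_iff_lt_or_eq.1 hi with h | h
          · left
            rw [hQ, mem_union, mem_biUnion]
            exact Or.inr ⟨f i, mem_image.2 ⟨i, mem_range.2 h, rfl⟩, hxu⟩
          · right; subst h; exact hxu
      have hcnbQ' : cnb G (f r) ⊆ Q' := by
        rw [hQ']
        intro x hx
        rw [mem_union, mem_biUnion]
        exact Or.inr ⟨f r, mem_image.2 ⟨r, mem_range.2 (by omega), rfl⟩, hx⟩
      -- common vertex of the two big components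
      obtain ⟨a, haI⟩ : ∃ a, a ∈ (I ∩ comp G Q s) ∩ (I ∩ comp G Q' s') := by
        by_contra hcon
        push Not at hcon
        have hdis : Disjoint (I ∩ comp G Q s) (I ∩ comp G Q' s') := by
          rw [disjoint_iff_inter_eq_empty]
          exact eq_empty_of_forall_notMem hcon
        have h1 : ((I ∩ comp G Q s) ∪ (I ∩ comp G Q' s')).card ≤ I.card :=
          card_le_card (union_subset inter_subset_left inter_subset_left)
        rw [card_union_of_disjoint hdis] at h1
        omega
      simp only [mem_inter, mem_comp] at haI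
      obtain ⟨⟨_, ha1⟩, _, ha2⟩ := haI
      have hzQ' : z ∉ ((comp G Q' s' : Finset V) : Set V) := by
        intro h
        rw [mem_coe, mem_comp] at h
        exact reach_not_mem h hs' (hcnbQ' hzf)
      have ha' : a ∈ ((comp G Q' s' : Finset V) : Set V) := by
        rw [mem_coe, mem_comp]; exact ha2
      obtain ⟨w, y, hwy, hw, hy, hzw⟩ := exists_cross (hz.symm.trans ha1) hzQ' ha'
      rw [mem_coe, mem_comp] at hw hy
      -- `w` lies in the old component
      have hsw : (del G Q).Reachable s w := hz.trans hzw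
      have hwQ : w ∉ Q := reach_not_mem hsw hs
      have hyQ' : y ∉ Q' := reach_not_mem hy hs'
      have hwQ' : w ∈ Q' := by
        by_contra hcon
        apply hw
        have : (del G Q').Adj y w := ⟨hwy.1.symm, hyQ', hcon⟩
        exact hy.trans this.reachable
      have hwf : w ∈ cnb G (f r) := (hQ'mem w hwQ').resolve_left hwQ
      have hfw : G.Adj (f r) w := by
        rw [mem_cnb] at hwf
        rcases hwf with h | h
        · exact h
        · exfalso
          apply hyQ'
          apply hcnbQ'
          rw [mem_cnb, h]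
          exact Or.inl hwy.1
      have hwi : ∀ i < r, ¬ (G.Adj (f i) w ∨ f i = w) := by
        intro i hi hcon
        apply hwQ
        rw [hQ, mem_union, mem_biUnion]
        exact Or.inr ⟨f i, mem_image.2 ⟨i, mem_range.2 hi, rfl⟩, mem_cnb.2 hcon⟩
      have himg : (range (r + 1)).image (Function.update f (r + 1) w) = (range (r + 1)).image f := by
        apply image_congr
        intro i hi
        rw [coe_range, Set.mem_Iio] at hi
        rw [Function.update_of_ne hi.ne]
      refine ⟨Function.update f (r + 1) w, s', ?_, ?_, ?_, ?_, y, ?_, ?_⟩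
      · intro i hi
        rcases Nat.lt_succ_iff_lt_or_eq.1 (Nat.lt_succ_of_le hi) with h | h
        · rw [Function.update_of_ne h.ne]
          exact hfZ i (by omega)
        · rw [h, Function.update_self]
          intro hwZ
          exact hwQ (by rw [hQ]; exact mem_union_left _ hwZ)
      · intro i j hij hj
        rcases Nat.lt_succ_iff_lt_or_eq.1 (Nat.lt_succ_of_le hj) with h | h
        · rw [Function.update_of_ne h.ne, Function.update_of_ne (by omega)]
          exact hind i j hij (by omega)
        · subst h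
          rw [Function.update_self, Function.update_of_ne hij.ne]
          rcases Nat.lt_succ_iff_lt_or_eq.1 hij with h | h
          · have := hwi i h
            push Not at this
            refine ⟨⟨fun h' => absurd h' this.1, fun h' => by omega⟩, this.2⟩
          · subst h
            exact ⟨⟨fun _ => rfl, fun _ => hfw⟩, hfw.ne⟩
      · rw [himg]; exact hs'
      · rw [himg]; exact hbigs'
      · rw [himg]; exact hy
      · rw [Function.update_self, mem_cnb]
        exact Or.inl hwy.1
  obtain ⟨f, _, _, hf, _⟩ := key n le_rfl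
  intro hNP
  exact hNP ⟨f, fun i j hij hj => hf i j hij (by omega)⟩

end Pool.Agent.H112R3.TA
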