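import Pool.Agent.H112R3.TA.PnA

/-! Separators of small independence number in graphs without long induced paths and without
induced balanced bicliques. -/

set_option autoImplicit false
set_option linter.unusedSectionVars false

namespace Pool.Agent.H112R3.TA

open Finset

variable {V : Type} [Fintype V] [DecidableEq V] {G : SimpleGraph V}

/-- grouping of the components of `G - S` into two parts -/
theorem exists_split (S I : Finset V) (m : ℕ) (hm : m ≤ I.card)
    (hpairs : ∀ s, s ∉ S → I.card ≥ (I ∩ comp G S s).card + 2 * m) :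
    ∃ P Q : Finset V, (∀ v, v ∈ S ∨ v ∈ P ∨ v ∈ Q) ∧ Disjoint P Q ∧ Disjoint S P ∧ Disjoint S Q ∧
      (∀ x ∈ P, ∀ y ∈ Q, ¬ G.Adj x y) ∧ (I ∩ P).card + m ≤ I.card ∧ (I ∩ Q).card + m ≤ I.card := by
  classical
  -- closed sets
  let CC : Finset (Finset V) := univ.filter (fun P => Disjoint S P ∧
    (∀ x ∈ P, ∀ y, y ∉ S → G.Adj x y → y ∈ P) ∧ (I ∩ P).card + m ≤ I.card)
  have hne : CC.Nonempty := by
    refine ⟨∅, ?_⟩
    simp only [CC, mem_filter, mem_univ, true_and]
    refine ⟨disjoint_empty_right _, fun x hx => absurd hx (notMem_empty x), ?_⟩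
    simpa using hm
  obtain ⟨P, hP, hmax⟩ := exists_max_image CC Finset.card hne
  simp only [CC, mem_filter, mem_univ, true_and] at hP
  refine ⟨P, (univ \ S) \ P, ?_, ?_, hP.1, ?_, ?_, hP.2.2, ?_⟩
  · intro v
    simp only [mem_sdiff, mem_univ, true_and]
    tauto
  · exact disjoint_sdiff
  · rw [disjoint_left]
    intro v
    simp only [mem_sdiff, mem_univ, true_and]
    tauto
  · intro x hx y hy hxy
    simp only [mem_sdiff, mem_univ, true_and] at hy
    exact hy.2 (hP.2.1 x hx y hy.1 hxy)
  · by_contra hcon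
    push Not at hcon
    have hQne : ((univ \ S) \ P).Nonempty := by
      rw [nonempty_iff_ne_empty]
      intro h
      rw [h] at hcon
      simp at hcon
      omega
    obtain ⟨q, hq⟩ := hQne
    simp only [mem_sdiff, mem_univ, true_and] at hq
    have hcl : P ∪ comp G S q ∈ CC := by
      simp only [CC, mem_filter, mem_univ, true_and]
      refine ⟨?_, ?_, ?_⟩
      · rw [disjoint_union_right]
        refine ⟨hP.1, ?_⟩
        rw [disjoint_right]
        intro y hy
        rw [mem_comp] at hy
        exact reach_not_mem hy hq.1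
      · intro x hx y hy hxy
        rw [mem_union] at hx ⊢
        rcases hx with hx | hx
        · exact Or.inl (hP.2.1 x hx y hy hxy)
        · right
          rw [mem_comp] at hx ⊢
          have : (del G S).Adj x y := ⟨hxy, reach_not_mem hx hq.1, hy⟩
          exact hx.trans this.reachable
      · have h1 : (I ∩ (P ∪ comp G S q)).card ≤ (I ∩ P).card + (I ∩ comp G S q).card := by
          rw [inter_union_distrib_left]
          exact card_union_le _ _
        have h2 := hpairs q hq.1
        have h3 : (I ∩ P).card + (I ∩ ((univ \ S) \ P)).card ≤ I.card := by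
          rw [← card_union_of_disjoint]
          · exact card_le_card (union_subset inter_subset_left inter_subset_left)
          · rw [disjoint_left]
            intro v
            simp only [mem_inter, mem_sdiff, mem_univ, true_and]
            tauto
        omega
    have h4 := hmax _ hcl
    have h5 : P.card < (P ∪ comp G S q).card := by
      apply card_lt_card
      rw [ssubset_iff_of_subset subset_union_left]
      exact ⟨q, mem_union_right _ (mem_comp.2 (SimpleGraph.Reachable.refl _)), hq.2⟩
    omega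

/-- constants -/
def pN (n t : ℕ) : ℕ := 16 * n ^ 2 * t
/-- constants -/
def pC (n t : ℕ) : ℕ := 32 * n * (pN n t) ^ 2 * 2 ^ (pN n t)
/-- constants -/
def pK (n t : ℕ) : ℕ := 128 * pN n t * 2 ^ (pN n t) + 1

/-- `P` is a valid link for the pair `x` -/
def Ok (G : SimpleGraph V) (n : ℕ) (P : Finset V) (x : V × V) : Prop :=
  Links G P x.1 x.2 ∧ P.card ≤ n

open Classical in
/-- the number of pairs not served by the path system `ψ` after the deletion of `S` -/
noncomputable def miss (G : SimpleGraph V) (n : ℕ) (I S : Finset V) (ψ : V × V → Finset V) : ℝ :=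
  ∑ x ∈ I ×ˢ I, if Ok G n (ψ x) x ∧ ψ x ∩ S = ∅ then (0 : ℝ) else 1

theorem caseA {n t : ℕ} (hn : 1 ≤ n) (ht : 1 ≤ t) (h : KF G t) (I : Finset V) (hI : 0 < I.card)
    (μ : (V × V → Finset V) → ℝ) (hμ : ∀ ψ, 0 ≤ μ ψ) (hμ1 : ∑ ψ, μ ψ = 1)
    (hS : ∀ S : Finset V, al G S ≤ pN n t →
      ∑ ψ, μ ψ * (miss G n I S ψ / (I.card : ℝ) ^ 2) < 1 / (16 * pN n t * 2 ^ pN n t)) :
    ¬ NP G n := by
  classical
  set N := pN n t with hN
  have hN1 : 16 ≤ N := by
    rw [hN, pN]
    have : 1 ≤ n ^ 2 * t := Nat.one_le_iff_ne_zero.2 (by positivity)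
    nlinarith
  have hNR : (N : ℝ) = 16 * n ^ 2 * t := by rw [hN, pN]; push_cast; ring
  have hnR : (1 : ℝ) ≤ n := by exact_mod_cast hn
  have htR : (1 : ℝ) ≤ t := by exact_mod_cast ht
  have htN : t ≤ N + 1 := by
    rw [hN, pN]
    have : t ≤ 16 * n ^ 2 * t := by
      have : 1 ≤ 16 * n ^ 2 := by nlinarith [Nat.one_le_two_pow (n := 0), Nat.pos_of_ne_zero (show n ^ 2 ≠ 0 by positivity)]
      nlinarith
    omega
  have hN16 : (16 : ℝ) ≤ N := by exact_mod_cast hN1
  have hpow : (1 : ℝ) ≤ 2 ^ N := one_le_pow₀ (by norm_num)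
  set ε : ℝ := 1 / (16 * N * 2 ^ N) with hε
  have hεpos : 0 < ε := by rw [hε]; positivity
  have hε16 : ε ≤ 1 / 16 := by
    rw [hε]
    apply one_div_le_one_div_of_le (by norm_num)
    nlinarith
  have hNε : (N : ℝ) * 2 ^ N * ε = 1 / 16 := by
    rw [hε]; field_simp
  set L : ℝ := (I.card : ℝ) with hL
  have hLpos : 0 < L := by rw [hL]; exact_mod_cast hI
  -- the weights
  let w : (V × V → Finset V) × (V × V) → ℝ := fun ω =>
    if ω.2 ∈ I ×ˢ I ∧ Ok G n (ω.1 ω.2) ω.2 then μ ω.1 / L ^ 2 else 0
  let p : (V × V → Finset V) × (V × V) → Finset V := fun ω =>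
    if Ok G n (ω.1 ω.2) ω.2 then ω.1 ω.2 else ∅
  have hw : ∀ ω, 0 ≤ w ω := by
    intro ω
    simp only [w]
    split_ifs
    · exact div_nonneg (hμ _) (by positivity)
    · exact le_rfl
  have hp : ∀ ω, (p ω).card ≤ n := by
    intro ω
    simp only [p]
    split_ifs with h1
    · exact h1.2
    · simp
  have hcardII : ((I ×ˢ I).card : ℝ) = L ^ 2 := by
    rw [card_product, hL]; push_cast; ring
  have hmiss : ∀ S ψ, miss G n I S ψ =
      L ^ 2 - ∑ x ∈ I ×ˢ I, if Ok G n (ψ x) x ∧ ψ x ∩ S = ∅ then (1 : ℝ) else 0 := by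
    intro S ψ
    unfold miss
    rw [← hcardII, card_eq_sum_ones]
    push_cast
    rw [← Finset.sum_sub_distrib]
    apply Finset.sum_congr rfl
    intro x _
    split_ifs <;> norm_num
  -- the unhit weight
  have hunhit : ∀ S, ∑ ω ∈ univ.filter (fun ω => p ω ∩ S = ∅), w ω =
      1 - ∑ ψ, μ ψ * (miss G n I S ψ / L ^ 2) := by
    intro S
    rw [Finset.sum_filter, Fintype.sum_prod_type]
    have h1 : ∀ ψ : V × V → Finset V, (∑ x : V × V, if p (ψ, x) ∩ S = ∅ then w (ψ, x) else 0) =
        μ ψ / L ^ 2 * ∑ x ∈ I ×ˢ I, if Ok G n (ψ x) x ∧ ψ x ∩ S = ∅ then (1 : ℝ) else 0 := by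
      intro ψ
      rw [Finset.mul_sum]
      rw [← Finset.sum_filter_add_sum_filter_not univ (fun x => x ∈ I ×ˢ I)]
      have h2 : ∑ x ∈ univ.filter (fun x : V × V => ¬ x ∈ I ×ˢ I),
          (if p (ψ, x) ∩ S = ∅ then w (ψ, x) else 0) = 0 := by
        apply Finset.sum_eq_zero
        intro x hx
        rw [mem_filter] at hx
        have : w (ψ, x) = 0 := by
          simp only [w]
          rw [if_neg]
          exact fun h => hx.2 h.1
        rw [this]
        simp
      rw [h2, add_zero]
      have h3 : univ.filter (fun x : V × V => x ∈ I ×ˢ I) = I ×ˢ I := by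
        ext x; simp
      rw [h3]
      apply Finset.sum_congr rfl
      intro x hx
      by_cases h4 : Ok G n (ψ x) x
      · have h5 : w (ψ, x) = μ ψ / L ^ 2 := by
          simp only [w]
          rw [if_pos ⟨hx, h4⟩]
        have h6 : p (ψ, x) = ψ x := by
          simp only [p]
          rw [if_pos h4]
        rw [h5, h6]
        by_cases h7 : ψ x ∩ S = ∅
        · rw [if_pos h7, if_pos ⟨h4, h7⟩, mul_one]
        · rw [if_neg h7, if_neg (fun h => h7 h.2), mul_zero]
      · have h5 : w (ψ, x) = 0 := by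
          simp only [w]
          rw [if_neg]
          exact fun h => h4 h.2
        simp [h5, h4]
    simp_rw [h1]
    conv_rhs => rw [← hμ1]
    rw [← Finset.sum_sub_distrib]
    apply Finset.sum_congr rfl
    intro ψ _
    rw [hmiss]
    field_simp
    ring
  have htotal : ∑ ω, w ω ≤ 1 := by
    have h1 : ∑ ω, w ω = ∑ ω ∈ univ.filter (fun ω => p ω ∩ ∅ = ∅), w ω := by
      rw [Finset.filter_true_of_mem]
      intro ω _
      exact inter_empty _
    rw [h1, hunhit]
    have : 0 ≤ ∑ ψ, μ ψ * (miss G n I ∅ ψ / L ^ 2) := by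
      apply Finset.sum_nonneg
      intro ψ _
      apply mul_nonneg (hμ _)
      apply div_nonneg _ (by positivity)
      unfold miss
      apply Finset.sum_nonneg
      intro x _
      split_ifs <;> norm_num
    linarith
  have hhit : ∀ S, hit w p S + ∑ ω ∈ univ.filter (fun ω => p ω ∩ S = ∅), w ω = ∑ ω, w ω := by
    intro S
    rw [hit_eq, Finset.sum_filter, ← Finset.sum_add_distrib]
    apply Finset.sum_congr rfl
    intro ω _
    by_cases h1 : (p ω ∩ S).Nonempty
    · rw [if_pos h1, if_neg (nonempty_iff_ne_empty.1 h1), add_zero]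
    · rw [if_neg h1, if_pos (not_nonempty_iff_eq_empty.1 h1), zero_add]
  have hSw : ∀ S : Finset V, al G S ≤ N → hit w p S ≤ ε := by
    intro S hSN
    have h1 := hhit S
    rw [hunhit] at h1
    have h2 := hS S hSN
    linarith
  have htot : 1 - ε ≤ ∑ ω, w ω := by
    have h1 := hhit ∅
    rw [hunhit] at h1
    have h2 := hS ∅ (by rw [al_empty]; exact Nat.zero_le _)
    have h3 : 0 ≤ hit w p ∅ := Finset.sum_nonneg fun ω _ => hw ω
    linarith
  set η : ℝ := 1 / (8 * n) with hη
  have hηpos : 0 < η := by rw [hη]; positivity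
  let Z : Finset V := univ.filter (fun u => η ≤ deg G w p u)
  have hZ : al G Z < N := by
    refine al_high_lt (k := N) (ε := ε) (η := η) h ht htN w hw htotal p hp ?_ ?_ Z ?_
    · intro S hSk
      exact hSw S hSk
    · have h1 : (n : ℝ) * N * 2 ^ N * ε = n / 16 := by
        calc (n : ℝ) * N * 2 ^ N * ε = n * (N * 2 ^ N * ε) := by ring
          _ = n / 16 := by rw [hNε]; ring
      have h2 : (N : ℝ) * η = 2 * n * t := by
        rw [hNR, hη]; field_simp; norm_num
      rw [h1, h2]
      nlinarith
    · intro u hu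
      exact (mem_filter.1 hu).2
  obtain ⟨n', rfl⟩ : ∃ n', n = n' + 1 := ⟨n - 1, by omega⟩
  apply gyarfas (n := n') Z I
  intro U hU hUZ
  set Q := Z ∪ U.biUnion (cnb G) with hQ
  have hhitQ : hit w p Q ≤ ε + 1 / 8 := by
    have h1 := hit_union w hw p Z (U.biUnion (cnb G))
    have h2 := hit_biUnion (G := G) w hw p U η (fun u hu => by
      have := hUZ u hu
      simp only [Z, mem_filter, mem_univ, true_and, not_le] at this
      exact this.le)
    have h3 : (U.card : ℝ) * η ≤ 1 / 8 := by
      have h4 : (U.card : ℝ) ≤ ((n' + 1 : ℕ) : ℝ) := by exact_mod_cast hU.trans (Nat.le_succ _)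
      calc (U.card : ℝ) * η ≤ ((n' + 1 : ℕ) : ℝ) * η := mul_le_mul_of_nonneg_right h4 hηpos.le
        _ = 1 / 8 := by rw [hη]; field_simp
    have h4 := hSw Z hZ.le
    linarith
  have hun : 3 / 4 ≤ ∑ ω ∈ univ.filter (fun ω => p ω ∩ Q = ∅), w ω := by
    have := hhit Q
    linarith
  by_contra hcon
  push Not at hcon
  -- bound the number of connected pairs
  have hle : ∑ ω ∈ univ.filter (fun ω => p ω ∩ Q = ∅), w ω ≤
      ∑ x ∈ I ×ˢ I, if x.1 ∉ Q ∧ (del G Q).Reachable x.1 x.2 then 1 / L ^ 2 else 0 := by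
    rw [Finset.sum_filter, Fintype.sum_prod_type, Finset.sum_comm]
    have h3 : univ.filter (fun x : V × V => x ∈ I ×ˢ I) = I ×ˢ I := by
      ext x; simp
    rw [← h3, Finset.sum_filter]
    apply Finset.sum_le_sum
    intro x _
    by_cases hxI : x ∈ I ×ˢ I
    · rw [if_pos hxI]
      by_cases hconn : x.1 ∉ Q ∧ (del G Q).Reachable x.1 x.2
      · rw [if_pos hconn]
        calc ∑ ψ : V × V → Finset V, (if p (ψ, x) ∩ Q = ∅ then w (ψ, x) else 0)
            ≤ ∑ ψ : V × V → Finset V, μ ψ / L ^ 2 := by
              apply Finset.sum_le_sum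
              intro ψ _
              have h4 : w (ψ, x) ≤ μ ψ / L ^ 2 := by
                simp only [w]
                split_ifs
                · exact le_rfl
                · exact div_nonneg (hμ _) (by positivity)
              split_ifs
              · exact h4
              · exact div_nonneg (hμ _) (by positivity)
          _ = 1 / L ^ 2 := by rw [← Finset.sum_div, hμ1]
      · rw [if_neg hconn]
        apply Finset.sum_nonpos
        intro ψ _
        split_ifs with h4
        · have : w (ψ, x) = 0 := by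
            simp only [w]
            rw [if_neg]
            rintro ⟨_, hok⟩
            apply hconn
            have h5 : p (ψ, x) = ψ x := by
              simp only [p]
              rw [if_pos hok]
            rw [h5] at h4
            exact hok.1.reach h4
          rw [this]
        · exact le_rfl
    · rw [if_neg hxI]
      apply Finset.sum_nonpos
      intro ψ _
      have : w (ψ, x) = 0 := by
        simp only [w]
        rw [if_neg]
        exact fun h => hxI h.1
      rw [this]
      simp
  have hle2 : ∑ x ∈ I ×ˢ I, (if x.1 ∉ Q ∧ (del G Q).Reachable x.1 x.2 then 1 / L ^ 2 else 0) ≤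
      1 / 2 := by
    rw [Finset.sum_product]
    have h4 : ∀ s ∈ I, (∑ y ∈ I, if s ∉ Q ∧ (del G Q).Reachable s y then 1 / L ^ 2 else 0) ≤
        (L / 2) * (1 / L ^ 2) := by
      intro s _
      by_cases hs : s ∉ Q
      · have h5 := hcon s hs
        have h6 : (∑ y ∈ I, if s ∉ Q ∧ (del G Q).Reachable s y then 1 / L ^ 2 else 0) =
            ((I ∩ comp G Q s).card : ℝ) * (1 / L ^ 2) := by
          rw [← Finset.sum_filter, Finset.sum_const, nsmul_eq_mul]
          congr 3
          ext y
          simp only [mem_filter, mem_inter, mem_comp]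
          tauto
        rw [h6]
        apply mul_le_mul_of_nonneg_right _ (by positivity)
        have h7 : (2 : ℝ) * ((I ∩ comp G Q s).card : ℝ) ≤ L := by
          rw [hL]; exact_mod_cast h5
        linarith
      · have h6 : (∑ y ∈ I, if s ∉ Q ∧ (del G Q).Reachable s y then 1 / L ^ 2 else 0) = 0 := by
          apply Finset.sum_eq_zero
          intro y _
          rw [if_neg]
          exact fun h => hs h.1
        rw [h6]
        positivity
    calc ∑ s ∈ I, ∑ y ∈ I, (if s ∉ Q ∧ (del G Q).Reachable s y then 1 / L ^ 2 else 0)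
        ≤ ∑ s ∈ I, (L / 2) * (1 / L ^ 2) := Finset.sum_le_sum h4
      _ = 1 / 2 := by
          rw [Finset.sum_const, nsmul_eq_mul, ← hL]
          field_simp
  linarith

end Pool.Agent.H112R3.TA
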