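import Pool.Agent.H112R3.TA.PnB

/-! Graphs without long induced paths and without induced balanced bicliques have bounded
tree-independence number. -/

set_option autoImplicit false
set_option linter.unusedSectionVars false

namespace Pool.Agent.H112R3.TA

open Finset

variable {V : Type} [Fintype V] [DecidableEq V] {G : SimpleGraph V}

theorem pn_sep {n t : ℕ} (hn : 1 ≤ n) (ht : 1 ≤ t) (h : KF G t) (hNP : NP G n)
    (I : Finset V) (m : ℕ) (hm : 0 < m) (hI : I.card = pK n t * m) :
    ∃ S P Q : Finset V, (∀ v, v ∈ S ∨ v ∈ P ∨ v ∈ Q) ∧ Disjoint P Q ∧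
        Disjoint S P ∧ Disjoint S Q ∧ (∀ x ∈ P, ∀ y ∈ Q, ¬ G.Adj x y) ∧
        al G S ≤ pC n t ∧ (I ∩ P).card + m ≤ I.card ∧ (I ∩ Q).card + m ≤ I.card := by
  classical
  set N := pN n t with hN
  have hN1 : 1 ≤ N := by
    rw [hN, pN]
    exact Nat.one_le_iff_ne_zero.2 (by positivity)
  have hNR1 : (1 : ℝ) ≤ N := by exact_mod_cast hN1
  have hnR : (1 : ℝ) ≤ n := by exact_mod_cast hn
  have hpow : (1 : ℝ) ≤ 2 ^ N := one_le_pow₀ (by norm_num)
  set ε : ℝ := 1 / (16 * N * 2 ^ N) with hε
  have hεpos : 0 < ε := by rw [hε]; positivity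
  have hK : pK n t = 128 * N * 2 ^ N + 1 := by rw [pK, ← hN]
  have hK2 : 2 < pK n t := by
    rw [hK]
    have : 1 ≤ N * 2 ^ N := Nat.one_le_iff_ne_zero.2 (by positivity)
    nlinarith
  have hIpos : 0 < I.card := by rw [hI]; positivity
  set L : ℝ := (I.card : ℝ) with hL
  have hLpos : 0 < L := by rw [hL]; exact_mod_cast hIpos
  have hLm : L = (128 * N * 2 ^ N + 1) * m := by
    rw [hL, hI, hK]; push_cast; ring
  have hmR : (1 : ℝ) ≤ m := by exact_mod_cast hm
  let SS : Type := {S : Finset V // al G S ≤ N}
  have hSS : Nonempty SS := ⟨⟨∅, by rw [al_empty]; exact Nat.zero_le _⟩⟩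
  rcases minimax (I := SS) (J := V × V → Finset V)
    (fun S ψ => miss G n I S.1 ψ / L ^ 2) ε with ⟨μ, hμ, hμ1, hμS⟩ | ⟨l, hl, hl1, hle⟩
  · exfalso
    exact caseA hn ht h I hIpos μ hμ hμ1 (fun S hS => hμS ⟨S, hS⟩) hNP
  · set xv : V → ℝ := fun v => ∑ S ∈ univ.filter (fun S : SS => v ∈ S.1), l S with hxv
    set S₀ : Finset V := univ.filter (fun v => ε / (2 * n) ≤ xv v) with hS₀
    have hal : al G S₀ ≤ pC n t := by
      have h1 := round_al (G := G) (k := N) l hl hl1 (fun S : SS => S.1) (fun S => S.2)
        (ε / (2 * n)) S₀ (by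
          intro v hv
          exact (mem_filter.1 hv).2)
      have h2 : (al G S₀ : ℝ) ≤ (pC n t : ℕ) := by
        have h3 : (al G S₀ : ℝ) ≤ N / (ε / (2 * n)) := by
          rw [le_div_iff₀ (by positivity)]
          exact h1
        refine h3.trans (le_of_eq ?_)
        rw [hε, pC, ← hN]
        push_cast
        field_simp
        ring
      exact_mod_cast h2
    obtain ⟨P, Q, h1, h2, h3, h4, h5, h6, h7⟩ := exists_split (G := G) S₀ I m
      (by rw [hI]; nlinarith) (by
      intro s hs
      by_contra hcon
      push Not at hcon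
      -- the path system
      let ψ : V × V → Finset V := fun x =>
        if hx : x.1 ∉ S₀ ∧ (del G S₀).Reachable x.1 x.2 then
          (exists_short hNP hx.1 hx.2).choose else ∅
      have hψ : ∀ x : V × V, x.1 ∉ S₀ ∧ (del G S₀).Reachable x.1 x.2 →
          Ok G n (ψ x) x ∧ ψ x ∩ S₀ = ∅ := by
        intro x hx
        have h8 : ψ x = (exists_short hNP hx.1 hx.2).choose := by
          simp only [ψ]
          rw [dif_pos hx]
        have h9 := (exists_short hNP hx.1 hx.2).choose_spec
        rw [h8]
        exact ⟨⟨h9.1, h9.2.1⟩, h9.2.2⟩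
      have h8 := hle ψ
      have h9 : ∑ S : SS, l S * (miss G n I S.1 ψ / L ^ 2) =
          (∑ x ∈ I ×ˢ I, ∑ S : SS, l S *
            (if Ok G n (ψ x) x ∧ ψ x ∩ S.1 = ∅ then (0 : ℝ) else 1)) / L ^ 2 := by
        rw [Finset.sum_comm, Finset.sum_div]
        apply Finset.sum_congr rfl
        intro S _
        unfold miss
        rw [← mul_div_assoc, Finset.mul_sum]
      rw [h9] at h8
      have h10 : ∀ x ∈ I ×ˢ I, ∑ S : SS, l S *
            (if Ok G n (ψ x) x ∧ ψ x ∩ S.1 = ∅ then (0 : ℝ) else 1) ≤
          ε / 2 + (if x.1 ∈ comp G S₀ s ∧ x.2 ∈ comp G S₀ s then 0 else 1) := by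
        intro x _
        by_cases hx : x.1 ∉ S₀ ∧ (del G S₀).Reachable x.1 x.2
        · obtain ⟨hok, hdis⟩ := hψ x hx
          have h11 : ∑ S : SS, l S * (if Ok G n (ψ x) x ∧ ψ x ∩ S.1 = ∅ then (0 : ℝ) else 1) ≤
              ∑ S : SS, ∑ v ∈ ψ x, (if v ∈ S.1 then l S else 0) := by
            apply Finset.sum_le_sum
            intro S _
            have h0 := hl S
            split_ifs with h12
            · rw [mul_zero]
              apply Finset.sum_nonneg
              intro v _
              split_ifs
              · exact h0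
              · exact le_rfl
            · have h13 : (ψ x ∩ S.1).Nonempty := by
                rw [nonempty_iff_ne_empty]
                exact fun h => h12 ⟨hok, h⟩
              obtain ⟨v, hv⟩ := h13
              rw [mem_inter] at hv
              have h14 := Finset.single_le_sum (f := fun v => if v ∈ S.1 then l S else 0)
                (fun v _ => by split_ifs <;> [exact h0; exact le_rfl]) hv.1
              simp only [hv.2, if_true] at h14
              rw [mul_one]
              exact h14
          have h15 : ∑ S : SS, ∑ v ∈ ψ x, (if v ∈ S.1 then l S else 0) = ∑ v ∈ ψ x, xv v := by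
            rw [Finset.sum_comm]
            apply Finset.sum_congr rfl
            intro v _
            rw [hxv]
            simp only
            rw [Finset.sum_filter]
          have h16 : ∑ v ∈ ψ x, xv v ≤ n * (ε / (2 * n)) := by
            calc ∑ v ∈ ψ x, xv v ≤ ∑ v ∈ ψ x, ε / (2 * n) := by
                  apply Finset.sum_le_sum
                  intro v hv
                  by_contra hcon2
                  push Not at hcon2
                  have : v ∈ S₀ := by
                    rw [hS₀, mem_filter]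
                    exact ⟨mem_univ _, hcon2.le⟩
                  exact Finset.notMem_empty v (hdis ▸ mem_inter.2 ⟨hv, this⟩)
              _ = (ψ x).card * (ε / (2 * n)) := by rw [Finset.sum_const, nsmul_eq_mul]
              _ ≤ n * (ε / (2 * n)) := by
                  apply mul_le_mul_of_nonneg_right _ (by positivity)
                  exact_mod_cast hok.2
          have h17 : (n : ℝ) * (ε / (2 * n)) = ε / 2 := by field_simp
          have h18 : (0 : ℝ) ≤ (if x.1 ∈ comp G S₀ s ∧ x.2 ∈ comp G S₀ s then 0 else 1) := by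
            split_ifs <;> norm_num
          linarith
        · have h11 : ¬ (x.1 ∈ comp G S₀ s ∧ x.2 ∈ comp G S₀ s) := by
            rintro ⟨ha, hb⟩
            rw [mem_comp] at ha hb
            exact hx ⟨reach_not_mem ha hs, ha.symm.trans hb⟩
          rw [if_neg h11]
          have h12 : ∑ S : SS, l S * (if Ok G n (ψ x) x ∧ ψ x ∩ S.1 = ∅ then (0 : ℝ) else 1) ≤
              ∑ S : SS, l S := by
            apply Finset.sum_le_sum
            intro S _
            have h0 := hl S
            split_ifs
            · simpa using h0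
            · simp
          rw [hl1] at h12
          linarith
      set a : ℝ := ((I ∩ comp G S₀ s).card : ℝ) with ha
      have hII : ((I ×ˢ I).card : ℝ) = L ^ 2 := by
        rw [card_product, hL]; push_cast; ring
      have h11 : ∑ x ∈ I ×ˢ I, (if x.1 ∈ comp G S₀ s ∧ x.2 ∈ comp G S₀ s then (0 : ℝ) else 1) =
          L ^ 2 - a ^ 2 := by
        have h12 : ∑ x ∈ I ×ˢ I, (if x.1 ∈ comp G S₀ s ∧ x.2 ∈ comp G S₀ s then (1 : ℝ) else 0) =
            a ^ 2 := by
          rw [← Finset.sum_filter, Finset.sum_const, nsmul_eq_mul, mul_one]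
          have : (I ×ˢ I).filter (fun x => x.1 ∈ comp G S₀ s ∧ x.2 ∈ comp G S₀ s) =
              (I ∩ comp G S₀ s) ×ˢ (I ∩ comp G S₀ s) := by
            ext x
            simp only [mem_filter, mem_product, mem_inter]
            tauto
          rw [this, card_product, ha]
          push_cast
          ring
        rw [← h12, ← hII, card_eq_sum_ones]
        push_cast
        rw [← Finset.sum_sub_distrib]
        apply Finset.sum_congr rfl
        intro x _
        split_ifs <;> norm_num
      have h12 := Finset.sum_le_sum h10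
      rw [Finset.sum_add_distrib, h11, Finset.sum_const, nsmul_eq_mul, hII] at h12
      have h13 : L ≤ a + 2 * m := by
        rw [hL, ha]; exact_mod_cast hcon.le
      have h14 : 2 * (m : ℝ) ≤ L := by
        rw [hLm]
        have : (2 : ℝ) ≤ 128 * N * 2 ^ N + 1 := by nlinarith
        nlinarith
      have h15 : (L - 2 * m) ^ 2 ≤ a ^ 2 := by
        apply pow_le_pow_left₀ <;> linarith
      rw [le_div_iff₀ (by positivity)] at h8
      have h16 : ε * L ^ 2 ≤ ε / 2 * L ^ 2 + 4 * m * L := by nlinarith
      have h17 : ε * L ≤ 8 * m := by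
        have : ε * L * L ≤ 8 * m * L := by nlinarith
        exact le_of_mul_le_mul_right this hLpos
      rw [hLm, hε] at h17
      have h18 : 1 / (16 * (N : ℝ) * 2 ^ N) * ((128 * N * 2 ^ N + 1) * m) =
          8 * m + m / (16 * N * 2 ^ N) := by
        field_simp
        ring
      rw [h18] at h17
      have h19 : 0 < (m : ℝ) / (16 * N * 2 ^ N) := by positivity
      linarith)
    exact ⟨S₀, P, Q, h1, h2, h3, h4, h5, hal, h6, h7⟩

theorem pn_main {n t : ℕ} (hn : 1 ≤ n) (ht : 1 ≤ t) (h : KF G t) (hNP : NP G n) :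
    ∃ r par B, IsTD G univ ∅ (pK n t * (2 * pC n t + 1) + pC n t) r par B := by
  set c := pC n t with hc
  refine td_of_sep (G := G) c (pK n t * (2 * c + 1)) (2 * c + 1) (by omega) (by omega) ?_
    univ ∅ (empty_subset _) (by rw [al_empty]; exact Nat.zero_le _)
  intro I _ hIc
  obtain ⟨S, P, Q, h1, h2, h3, h4, h5, h6, h7, h8⟩ := pn_sep hn ht h hNP I (2 * c + 1) (by omega) hIc
  rw [hIc] at h7 h8
  exact ⟨S, P, Q, h1, h2, h3, h4, h5, h6, h7, h8⟩

end Pool.Agent.H112R3.TA
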