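import Pool.Agent.H112R3.TA.Hit

/-! Cuts of bounded sim-value in graphs without induced balanced bicliques. -/

set_option autoImplicit false
set_option linter.unusedSectionVars false

namespace Pool.Agent.H112R3.TA

open Finset

variable {V : Type} [Fintype V] [DecidableEq V] {G : SimpleGraph V}

/-- constants -/
def cN (s t : ℕ) : ℕ := 16 * (s + 1) * t + 1

/-- constants -/
def cC (s t : ℕ) : ℕ := 8 * (cN s t) ^ 2 * 2 ^ (cN s t)

/-- the crossing edges of a cut with bounded sim-value have a vertex cover of bounded independence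
number -/
theorem cut_cover {s t : ℕ} (ht : 1 ≤ t) (h : KF G t) (X : Finset V)
    (hsim : ∀ (m : ℕ) (a b : Fin m → V), (∀ i, a i ∈ X ∧ b i ∉ X ∧ G.Adj (a i) (b i)) →
        (∀ i j, i ≠ j →
          ¬ G.Adj (a i) (a j) ∧ ¬ G.Adj (b i) (b j) ∧ ¬ G.Adj (a i) (b j)) → m ≤ s) :
    ∃ S : Finset V, al G S ≤ cC s t ∧ ∀ u ∈ X, ∀ v, v ∉ X → G.Adj u v → u ∈ S ∨ v ∈ S := by
  classical
  let Ω : Type := {e : V × V // e.1 ∈ X ∧ e.2 ∉ X ∧ G.Adj e.1 e.2}
  by_cases hΩ : Nonempty Ω
  swap
  · refine ⟨∅, by rw [al_empty]; exact Nat.zero_le _, ?_⟩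
    intro u hu v hv huv
    exact absurd ⟨⟨(u, v), hu, hv, huv⟩⟩ hΩ
  let p : Ω → Finset V := fun e => {e.1.1, e.1.2}
  have hp : ∀ e, (p e).card ≤ 2 := fun e => card_le_two
  set N := cN s t with hNdef
  have hN1 : 1 ≤ N := by rw [hNdef, cN]; omega
  have hNR : (N : ℝ) = 16 * (s + 1) * t + 1 := by
    rw [hNdef, cN]; push_cast; ring
  have htN : t ≤ N + 1 := by
    rw [hNdef, cN]; nlinarith
  let 𝒮 : Type := {S : Finset V // al G S ≤ N}
  have h𝒮 : Nonempty 𝒮 := ⟨⟨∅, by rw [al_empty]; exact Nat.zero_le _⟩⟩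
  set ε : ℝ := 1 / (4 * N * 2 ^ N) with hε
  have hNpos : (1 : ℝ) ≤ N := by exact_mod_cast hN1
  have hpow : (1 : ℝ) ≤ 2 ^ N := one_le_pow₀ (by norm_num)
  have hεpos : 0 < ε := by rw [hε]; positivity
  rcases minimax (I := 𝒮) (J := Ω) (fun S e => if (p e ∩ S.1).Nonempty then 1 else 0) ε with
    ⟨μ, hμ, hμ1, hμS⟩ | ⟨l, hl, hl1, hle⟩
  · exfalso
    have hS : ∀ S : Finset V, al G S ≤ N → hit μ p S ≤ ε := by
      intro S hSk
      have := hμS ⟨S, hSk⟩
      rw [hit_eq]
      simp only [mul_ite, mul_one, mul_zero] at this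
      exact this.le
    set η : ℝ := 1 / (4 * (s + 1)) with hη
    have hηpos : 0 < η := by rw [hη]; positivity
    have ht' : (1 : ℝ) ≤ t := by exact_mod_cast ht
    have hNη : (N : ℝ) * η = 4 * t + η := by
      rw [hNR, hη]; field_simp; ring
    have hNε : (N : ℝ) * 2 ^ N * ε = 1 / 4 := by
      rw [hε]; field_simp
    let Z : Finset V := univ.filter (fun u => η ≤ deg G μ p u)
    have hZ : al G Z < N := by
      refine al_high_lt (k := N) (ε := ε) (η := η) h ht htN μ hμ hμ1.le p hp ?_ ?_ Z ?_
      · intro S hSk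
        exact hS S hSk
      · push_cast
        have : 2 * (N : ℝ) * 2 ^ N * ε = 1 / 2 := by
          calc 2 * (N : ℝ) * 2 ^ N * ε = 2 * (N * 2 ^ N * ε) := by ring
            _ = 1 / 2 := by rw [hNε]; norm_num
        rw [this, hNη]
        linarith
      · intro u hu
        exact (mem_filter.1 hu).2
    have hε4 : ε ≤ 1 / 4 := by
      rw [hε]
      apply one_div_le_one_div_of_le (by norm_num)
      nlinarith
    obtain ⟨e, he⟩ := greedy (G := G) hμ hμ1 p (n := 2) (M := s + 1) (ε := ε) (η := η) hp hηpos.le Z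
      (hS Z hZ.le) (fun u hu => by
        by_contra hcon
        push Not at hcon
        exact hu (mem_filter.2 ⟨mem_univ _, hcon.le⟩)) (by
          have : ((s + 1 : ℕ) : ℝ) * (2 : ℕ) * η = 1 / 2 := by
            rw [hη]; push_cast; field_simp; norm_num
          rw [this]; linarith)
    have hlt := hsim (s + 1) (fun i => (e i).1.1) (fun i => (e i).1.2)
      (fun i => (e i).2) (by
        intro i j hij
        have key : ∀ a b : ℕ, a < s + 1 → b < a → ∀ x ∈ p (e a), ∀ u ∈ p (e b), ¬ G.Adj u x :=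
          fun a b ha hb x hx u hu hadj => (he a ha).2 b hb x hx u hu (Or.inl hadj)
        have m1 : ∀ a, (e a).1.1 ∈ p (e a) := fun a => mem_insert_self _ _
        have m2 : ∀ a, (e a).1.2 ∈ p (e a) := fun a => mem_insert_of_mem (mem_singleton_self _)
        rcases lt_trichotomy i.val j.val with hlt | heq | hlt
        · refine ⟨key j i j.2 hlt _ (m1 _) _ (m1 _), key j i j.2 hlt _ (m2 _) _ (m2 _),
            key j i j.2 hlt _ (m2 _) _ (m1 _)⟩
        · exact absurd (Fin.ext heq) hij
        · refine ⟨fun h => key i j i.2 hlt _ (m1 _) _ (m1 _) h.symm,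
            fun h => key i j i.2 hlt _ (m2 _) _ (m2 _) h.symm,
            fun h => key i j i.2 hlt _ (m1 _) _ (m2 _) h.symm⟩)
    omega
  · refine ⟨univ.filter (fun v => ε / 2 ≤
        ∑ S ∈ univ.filter (fun S : 𝒮 => v ∈ S.1), l S), ?_, ?_⟩
    · have h1 := round_al (G := G) (k := N) l hl hl1 (fun S : 𝒮 => S.1) (fun S => S.2) (ε / 2)
        (univ.filter (fun v => ε / 2 ≤ ∑ S ∈ univ.filter (fun S : 𝒮 => v ∈ S.1), l S)) (by
          intro v hv
          exact (mem_filter.1 hv).2)
      set A := al G (univ.filter (fun v => ε / 2 ≤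
        ∑ S ∈ univ.filter (fun S : 𝒮 => v ∈ S.1), l S)) with hA
      have h2 : (A : ℝ) ≤ (cC s t : ℕ) := by
        have h3 : (A : ℝ) ≤ N / (ε / 2) := by
          rw [le_div_iff₀ (by positivity)]
          exact h1
        refine h3.trans (le_of_eq ?_)
        rw [hε, cC, ← hNdef]
        push_cast
        field_simp
        ring
      exact_mod_cast h2
    · intro u hu v hv huv
      have h1 := hle ⟨(u, v), hu, hv, huv⟩
      have h2 : ∑ S : 𝒮, l S * (if (p ⟨(u, v), hu, hv, huv⟩ ∩ S.1).Nonempty then (1 : ℝ) else 0) ≤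
          ∑ S ∈ univ.filter (fun S : 𝒮 => u ∈ S.1), l S +
          ∑ S ∈ univ.filter (fun S : 𝒮 => v ∈ S.1), l S := by
        rw [Finset.sum_filter, Finset.sum_filter, ← Finset.sum_add_distrib]
        apply Finset.sum_le_sum
        intro S _
        have h0 := hl S
        by_cases h3 : u ∈ S.1
        · rw [if_pos h3]
          split_ifs <;> linarith
        · by_cases h4 : v ∈ S.1
          · rw [if_pos h4]
            split_ifs <;> linarith
          · have : ¬ (p ⟨(u, v), hu, hv, huv⟩ ∩ S.1).Nonempty := by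
              rintro ⟨x, hx⟩
              rw [mem_inter] at hx
              have hx1 : x = u ∨ x = v := by
                have := hx.1
                simp only [p, mem_insert, mem_singleton] at this
                exact this
              rcases hx1 with rfl | rfl
              · exact h3 hx.2
              · exact h4 hx.2
            rw [if_neg this, if_neg h3, if_neg h4]
            simp
      have h3 := h1.trans h2
      by_contra hcon
      push Not at hcon
      rw [mem_filter, mem_filter] at hcon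
      simp only [mem_univ, true_and, not_le] at hcon
      linarith [hcon.1, hcon.2]

end Pool.Agent.H112R3.TA
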