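import Pool.Agent.H112R3.TA.Sim

/-! Graphs of bounded sim-width without induced balanced bicliques have bounded
tree-independence number. -/

set_option autoImplicit false
set_option linter.unusedSectionVars false

namespace Pool.Agent.H112R3.TA

open Finset

variable {V : Type} [Fintype V] [DecidableEq V] {G : SimpleGraph V}

lemma KF_of_not_exists {t : ℕ} (h : ¬ ∃ f : Fin t ⊕ Fin t → V, Function.Injective f ∧
        ∀ x y, G.Adj (f x) (f y) ↔ (completeBipartiteGraph (Fin t) (Fin t)).Adj x y) :
    KF G t := by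
  intro X Y hX hY hXi hYi hXY
  apply h
  let fX := (X.equivFinOfCardEq hX).symm
  let fY := (Y.equivFinOfCardEq hY).symm
  refine ⟨Sum.elim (fun i => (fX i : V)) (fun i => (fY i : V)), ?_, ?_⟩
  · rw [Sum.elim_injective]
    refine ⟨fun a b hab => fX.injective (Subtype.ext hab),
      fun a b hab => fY.injective (Subtype.ext hab), ?_⟩
    intro a b hab
    have := hXY _ (fX a).2 _ (fY b).2
    rw [hab] at this
    exact G.loopless.irrefl _ this
  · intro x y
    rcases x with a | a <;> rcases y with b | b
    · simp only [Sum.elim_inl, completeBipartiteGraph_adj, Sum.isLeft_inl, Sum.isRight_inl,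
        Bool.false_eq_true, and_false, false_and, or_self, iff_false]
      intro hadj
      exact hXi (fX a).2 (fX b).2 hadj.ne hadj
    · simp only [Sum.elim_inl, Sum.elim_inr, completeBipartiteGraph_adj, Sum.isLeft_inl,
        Sum.isRight_inr, and_self, true_or, iff_true]
      exact hXY _ (fX a).2 _ (fY b).2
    · simp only [Sum.elim_inl, Sum.elim_inr, completeBipartiteGraph_adj, Sum.isLeft_inl,
        Sum.isRight_inr, and_self, or_true, iff_true]
      exact (hXY _ (fX b).2 _ (fY a).2).symm
    · simp only [Sum.elim_inr, completeBipartiteGraph_adj, Sum.isLeft_inr, Sum.isRight_inr,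
        Bool.false_eq_true, false_and, and_false, or_self, iff_false]
      intro hadj
      exact hYi (fY a).2 (fY b).2 hadj.ne hadj

theorem sim_main {s t : ℕ} (ht : 1 ≤ t) (h : KF G t) (F : Finset (Finset V))
    (hF1 : Finset.univ ∈ F)
    (hF2 : ∀ X ∈ F, 2 ≤ X.card →
        ∃ Y ∈ F, ∃ Z ∈ F, Y.Nonempty ∧ Z.Nonempty ∧ Disjoint Y Z ∧ Y ∪ Z = X)
    (hF3 : ∀ X ∈ F, ∀ (m : ℕ) (a b : Fin m → V),
        (∀ i, a i ∈ X ∧ b i ∉ X ∧ G.Adj (a i) (b i)) →
        (∀ i j, i ≠ j →
          ¬ G.Adj (a i) (a j) ∧ ¬ G.Adj (b i) (b j) ∧ ¬ G.Adj (a i) (b j)) →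
        m ≤ s) :
    ∃ n par B, IsTD G univ ∅ (7 * cC s t + 3) n par B := by
  set c := cC s t with hc
  have main := td_of_sep (G := G) c (3 * (2 * c + 1)) (2 * c + 1) (by omega) (by omega) ?_
    univ ∅ (empty_subset _) (by rw [al_empty]; exact Nat.zero_le _)
  · obtain ⟨n, par, B, hB⟩ := main
    exact ⟨n, par, B, by
      have : 3 * (2 * c + 1) + c = 7 * c + 3 := by ring
      rwa [this] at hB⟩
  · intro I hI hIc
    -- a minimal member of `F` containing more than a third of `I`
    have hex : ∃ X ∈ F, I.card < 3 * (I ∩ X).card := by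
      refine ⟨univ, hF1, ?_⟩
      rw [inter_univ]
      omega
    obtain ⟨X, hX, hmin⟩ : ∃ X ∈ F.filter (fun X => I.card < 3 * (I ∩ X).card),
        ∀ Y ∈ F.filter (fun X => I.card < 3 * (I ∩ X).card), X.card ≤ Y.card := by
      apply Finset.exists_min_image
      obtain ⟨X, hX, hX'⟩ := hex
      exact ⟨X, mem_filter.2 ⟨hX, hX'⟩⟩
    rw [mem_filter] at hX
    have hX2 : 2 ≤ X.card := by
      have : (I ∩ X).card ≤ X.card := card_le_card inter_subset_right
      omega
    obtain ⟨Y, hY, Z, hZ, hYn, hZn, hYZ, hYZX⟩ := hF2 X hX.1 hX2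
    have hcX : Y.card + Z.card = X.card := by
      rw [← hYZX, card_union_of_disjoint hYZ]
    have hYp := card_pos.2 hYn
    have hZp := card_pos.2 hZn
    have hY3 : 3 * (I ∩ Y).card ≤ I.card := by
      by_contra hcon
      push Not at hcon
      have := hmin Y (mem_filter.2 ⟨hY, hcon⟩)
      omega
    have hZ3 : 3 * (I ∩ Z).card ≤ I.card := by
      by_contra hcon
      push Not at hcon
      have := hmin Z (mem_filter.2 ⟨hZ, hcon⟩)
      omega
    have hIX : (I ∩ X).card ≤ (I ∩ Y).card + (I ∩ Z).card := by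
      rw [← hYZX, inter_union_distrib_left]
      exact card_union_le _ _
    obtain ⟨S, hS, hcov⟩ := cut_cover ht h X (hF3 X hX.1)
    refine ⟨S, X \ S, (univ \ X) \ S, ?_, ?_, ?_, ?_, ?_, hS, ?_, ?_⟩
    · intro v
      simp only [mem_sdiff, mem_univ, true_and]
      tauto
    · rw [disjoint_left]
      intro v
      simp only [mem_sdiff, mem_univ, true_and]
      tauto
    · rw [disjoint_left]
      intro v
      simp only [mem_sdiff]
      tauto
    · rw [disjoint_left]
      intro v
      simp only [mem_sdiff, mem_univ, true_and]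
      tauto
    · intro x hx y hy hxy
      simp only [mem_sdiff, mem_univ, true_and] at hx hy
      have := hcov x hx.1 y hy.1 hxy
      tauto
    · have h1 : (I ∩ (X \ S)).card ≤ (I ∩ X).card :=
        card_le_card (inter_subset_inter_left sdiff_subset)
      omega
    · have h1 : (I ∩ ((univ \ X) \ S)).card ≤ (I \ X).card := by
        apply card_le_card
        intro v hv
        simp only [mem_inter, mem_sdiff, mem_univ, true_and] at hv ⊢
        tauto
      have h2 : (I ∩ X).card + (I \ X).card = I.card := by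
        rw [add_comm]
        exact card_sdiff_add_card_inter I X
      omega

end Pool.Agent.H112R3.TA
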