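import Pool.Agent.H112R3.TA.Alpha

/-! Balanced separators of small independence number give tree decompositions whose bags have
small independence number. -/

set_option autoImplicit false
set_option linter.unusedSectionVars false

namespace Pool.Agent.H112R3.TA

open Finset

variable {V : Type} [Fintype V] [DecidableEq V] {G : SimpleGraph V}

/-- node `i` is the top node of `v` -/
def Top (par : ℕ → ℕ) (B : ℕ → Finset V) (v : V) (i : ℕ) : Prop :=
  v ∈ B i ∧ (i = 0 ∨ v ∉ B (par i))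

/-- rooted tree decomposition given by a parent function, `W` being contained in the root bag -/
structure IsTD (G : SimpleGraph V) (U W : Finset V) (C n : ℕ) (par : ℕ → ℕ)
    (B : ℕ → Finset V) : Prop where
  pos : 0 < n
  lt : ∀ i, 0 < i → i < n → par i < i
  root : W ⊆ B 0
  sub : ∀ i, i < n → B i ⊆ U
  cov : ∀ v ∈ U, ∃ i, i < n ∧ v ∈ B i
  edge : ∀ u ∈ U, ∀ v ∈ U, G.Adj u v → ∃ i, i < n ∧ u ∈ B i ∧ v ∈ B i
  top : ∀ v i j, i < n → j < n → Top par B v i → Top par B v j → i = j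
  wid : ∀ i, i < n → al G (B i) ≤ C

/-- the single bag -/
lemma IsTD.single (U W : Finset V) (hWU : W ⊆ U) (C : ℕ) (h : al G U ≤ C) :
    IsTD G U W C 1 (fun _ => 0) (fun _ => U) where
  pos := one_pos
  lt := by intro i h1 h2; omega
  root := hWU
  sub := fun _ _ => Subset.rfl
  cov := fun v hv => ⟨0, one_pos, hv⟩
  edge := fun u hu v hv _ => ⟨0, one_pos, hu, hv⟩
  top := by intro v i j hi hj _ _; omega
  wid := fun _ _ => h

/-- parent function of the join -/
def jpar (n₁ : ℕ) (par₁ par₂ : ℕ → ℕ) (i : ℕ) : ℕ :=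
  if i ≤ 1 then 0 else
    if i ≤ n₁ then 1 + par₁ (i - 1) else
      if i = n₁ + 1 then 0 else 1 + n₁ + par₂ (i - 1 - n₁)

/-- bags of the join -/
def jbag (D : Finset V) (n₁ : ℕ) (B₁ B₂ : ℕ → Finset V) (i : ℕ) : Finset V :=
  if i = 0 then D else if i ≤ n₁ then B₁ (i - 1) else B₂ (i - 1 - n₁)

lemma IsTD.join {U₁ U₂ W₁ W₂ W D : Finset V} {C n₁ n₂ : ℕ} {par₁ par₂ : ℕ → ℕ}
    {B₁ B₂ : ℕ → Finset V} (h₁ : IsTD G U₁ W₁ C n₁ par₁ B₁) (h₂ : IsTD G U₂ W₂ C n₂ par₂ B₂)
    (hD : al G D ≤ C) (hDU : D ⊆ U₁ ∪ U₂) (hWD : W ⊆ D)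
    (hD₁ : D ∩ U₁ ⊆ W₁) (hD₂ : D ∩ U₂ ⊆ W₂) (hU : U₁ ∩ U₂ ⊆ D)
    (hedge : ∀ u ∈ U₁ ∪ U₂, ∀ v ∈ U₁ ∪ U₂, G.Adj u v → (u ∈ U₁ ∧ v ∈ U₁) ∨ (u ∈ U₂ ∧ v ∈ U₂)) :
    IsTD G (U₁ ∪ U₂) W C (n₁ + n₂ + 1) (jpar n₁ par₁ par₂) (jbag D n₁ B₁ B₂) := by
  have p1 := h₁.pos
  have p2 := h₂.pos
  have b0 : jbag D n₁ B₁ B₂ 0 = D := by simp [jbag]
  have b1 : ∀ i, i < n₁ → jbag D n₁ B₁ B₂ (i + 1) = B₁ i := by
    intro i hi
    simp only [jbag]
    rw [if_neg (by omega), if_pos (by omega)]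
    congr 1
  have b2 : ∀ i, jbag D n₁ B₁ B₂ (i + 1 + n₁) = B₂ i := by
    intro i
    simp only [jbag]
    rw [if_neg (by omega), if_neg (by omega)]
    congr 1
    omega
  have q1 : jpar n₁ par₁ par₂ 1 = 0 := by simp [jpar]
  have q1' : ∀ i, 0 < i → i < n₁ → jpar n₁ par₁ par₂ (i + 1) = par₁ i + 1 := by
    intro i h0 hi
    simp only [jpar]
    rw [if_neg (by omega), if_pos (by omega), show i + 1 - 1 = i by omega]
    omega
  have q2 : jpar n₁ par₁ par₂ (0 + 1 + n₁) = 0 := by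
    simp only [jpar]
    rw [if_neg (by omega), if_neg (by omega), if_pos (by omega)]
  have q2' : ∀ i, 0 < i → jpar n₁ par₁ par₂ (i + 1 + n₁) = par₂ i + 1 + n₁ := by
    intro i h0
    simp only [jpar]
    rw [if_neg (by omega), if_neg (by omega), if_neg (by omega),
      show i + 1 + n₁ - 1 - n₁ = i by omega]
    omega
  have cases' : ∀ i, i < n₁ + n₂ + 1 → i = 0 ∨ (∃ k, k < n₁ ∧ i = k + 1) ∨
      (∃ k, k < n₂ ∧ i = k + 1 + n₁) := by
    intro i hi
    rcases Nat.eq_zero_or_pos i with h | h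
    · exact Or.inl h
    · by_cases h' : i ≤ n₁
      · exact Or.inr (Or.inl ⟨i - 1, by omega, by omega⟩)
      · exact Or.inr (Or.inr ⟨i - 1 - n₁, by omega, by omega⟩)
  -- tops in the first part
  have t1 : ∀ v k, k < n₁ → Top (jpar n₁ par₁ par₂) (jbag D n₁ B₁ B₂) v (k + 1) →
      Top par₁ B₁ v k ∧ v ∉ D := by
    intro v k hk ht
    have hv : v ∈ B₁ k := by
      have := ht.1
      rwa [b1 k hk] at this
    have htop : Top par₁ B₁ v k := by
      rcases Nat.eq_zero_or_pos k with h | h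
      · exact ⟨hv, Or.inl h⟩
      · refine ⟨hv, Or.inr ?_⟩
        rcases ht.2 with h' | h'
        · omega
        · rw [q1' k h hk, b1 _ ((h₁.lt k h hk).trans hk)] at h'
          exact h'
    refine ⟨htop, fun hvD => ?_⟩
    have hvW : v ∈ B₁ 0 := h₁.root (hD₁ (mem_inter.2 ⟨hvD, h₁.sub k hk hv⟩))
    have hk0 : k = 0 := h₁.top v k 0 hk p1 htop ⟨hvW, Or.inl rfl⟩
    subst hk0
    rcases ht.2 with h' | h'
    · omega
    · rw [q1, b0] at h'
      exact h' hvD
  have t2 : ∀ v k, k < n₂ → Top (jpar n₁ par₁ par₂) (jbag D n₁ B₁ B₂) v (k + 1 + n₁) →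
      Top par₂ B₂ v k ∧ v ∉ D := by
    intro v k hk ht
    have hv : v ∈ B₂ k := by
      have := ht.1
      rwa [b2 k] at this
    have htop : Top par₂ B₂ v k := by
      rcases Nat.eq_zero_or_pos k with h | h
      · exact ⟨hv, Or.inl h⟩
      · refine ⟨hv, Or.inr ?_⟩
        rcases ht.2 with h' | h'
        · omega
        · rw [q2' k h, b2 _] at h'
          exact h'
    refine ⟨htop, fun hvD => ?_⟩
    have hvW : v ∈ B₂ 0 := h₂.root (hD₂ (mem_inter.2 ⟨hvD, h₂.sub k hk hv⟩))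
    have hk0 : k = 0 := h₂.top v k 0 hk p2 htop ⟨hvW, Or.inl rfl⟩
    subst hk0
    rcases ht.2 with h' | h'
    · omega
    · rw [q2, b0] at h'
      exact h' hvD
  refine ⟨by omega, ?_, ?_, ?_, ?_, ?_, ?_, ?_⟩
  · intro i h0 hi
    rcases cases' i hi with rfl | ⟨k, hk, rfl⟩ | ⟨k, hk, rfl⟩
    · omega
    · rcases Nat.eq_zero_or_pos k with h | h
      · subst h; rw [q1]; omega
      · rw [q1' k h hk]
        have := h₁.lt k h hk
        omega
    · rcases Nat.eq_zero_or_pos k with h | h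
      · subst h; rw [q2]; omega
      · rw [q2' k h]
        have := h₂.lt k h hk
        omega
  · rw [b0]; exact hWD
  · intro i hi
    rcases cases' i hi with rfl | ⟨k, hk, rfl⟩ | ⟨k, hk, rfl⟩
    · rw [b0]; exact hDU
    · rw [b1 k hk]; exact (h₁.sub k hk).trans subset_union_left
    · rw [b2 k]; exact (h₂.sub k hk).trans subset_union_right
  · intro v hv
    rcases mem_union.1 hv with h | h
    · obtain ⟨i, hi, hvi⟩ := h₁.cov v h
      exact ⟨i + 1, by omega, by rw [b1 i hi]; exact hvi⟩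
    · obtain ⟨i, hi, hvi⟩ := h₂.cov v h
      exact ⟨i + 1 + n₁, by omega, by rw [b2 i]; exact hvi⟩
  · intro u hu v hv huv
    rcases hedge u hu v hv huv with ⟨h, h'⟩ | ⟨h, h'⟩
    · obtain ⟨i, hi, hui, hvi⟩ := h₁.edge u h v h' huv
      exact ⟨i + 1, by omega, by rw [b1 i hi]; exact ⟨hui, hvi⟩⟩
    · obtain ⟨i, hi, hui, hvi⟩ := h₂.edge u h v h' huv
      exact ⟨i + 1 + n₁, by omega, by rw [b2 i]; exact ⟨hui, hvi⟩⟩
  · intro v i j hi hj ti tj
    rcases cases' i hi with rfl | ⟨k, hk, rfl⟩ | ⟨k, hk, rfl⟩ <;>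
      rcases cases' j hj with rfl | ⟨l, hl, rfl⟩ | ⟨l, hl, rfl⟩
    · rfl
    · exact absurd (by have := ti.1; rwa [b0] at this) (t1 v l hl tj).2
    · exact absurd (by have := ti.1; rwa [b0] at this) (t2 v l hl tj).2
    · exact absurd (by have := tj.1; rwa [b0] at this) (t1 v k hk ti).2
    · rw [h₁.top v k l hk hl (t1 v k hk ti).1 (t1 v l hl tj).1]
    · exact absurd (hU (mem_inter.2 ⟨h₁.sub k hk (t1 v k hk ti).1.1,
        h₂.sub l hl (t2 v l hl tj).1.1⟩)) (t1 v k hk ti).2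
    · exact absurd (by have := tj.1; rwa [b0] at this) (t2 v k hk ti).2
    · exact absurd (hU (mem_inter.2 ⟨h₁.sub l hl (t1 v l hl tj).1.1,
        h₂.sub k hk (t2 v k hk ti).1.1⟩)) (t1 v l hl tj).2
    · rw [h₂.top v k l hk hl (t2 v k hk ti).1 (t2 v l hl tj).1]
  · intro i hi
    rcases cases' i hi with rfl | ⟨k, hk, rfl⟩ | ⟨k, hk, rfl⟩
    · rw [b0]; exact hD
    · rw [b1 k hk]; exact h₁.wid k hk
    · rw [b2 k]; exact h₂.wid k hk

omit [Fintype V] in
lemma set_fact1 {S P Q U : Finset V} (hcov : ∀ v, v ∈ S ∨ v ∈ P ∨ v ∈ Q) :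
    ((U ∩ P) ∪ (U ∩ S)) ∪ ((U ∩ Q) ∪ (U ∩ S)) = U := by
  ext x
  simp only [mem_union, mem_inter]
  have := hcov x
  tauto

omit [Fintype V] in
lemma set_fact2 {S P U W' : Finset V} (hSP : Disjoint S P) :
    (W' ∪ (U ∩ S)) ∩ ((U ∩ P) ∪ (U ∩ S)) ⊆ (W' ∩ P) ∪ (U ∩ S) := by
  intro x hx
  have h3 : ¬ (x ∈ S ∧ x ∈ P) := fun h => disjoint_left.1 hSP h.1 h.2
  simp only [mem_union, mem_inter] at hx ⊢
  tauto

omit [Fintype V] in
lemma set_fact3 {S P Q U W' : Finset V} (hPQ : Disjoint P Q) :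
    ((U ∩ P) ∪ (U ∩ S)) ∩ ((U ∩ Q) ∪ (U ∩ S)) ⊆ W' ∪ (U ∩ S) := by
  intro x hx
  have h3 : ¬ (x ∈ P ∧ x ∈ Q) := fun h => disjoint_left.1 hPQ h.1 h.2
  simp only [mem_union, mem_inter] at hx ⊢
  tauto

omit [Fintype V] in
lemma set_fact4 {S P Q U : Finset V} (hcov : ∀ v, v ∈ S ∨ v ∈ P ∨ v ∈ Q)
    (hne : ∀ x ∈ P, ∀ y ∈ Q, ¬ G.Adj x y) :
    ∀ u ∈ U, ∀ v ∈ U, G.Adj u v →
      (u ∈ (U ∩ P) ∪ (U ∩ S) ∧ v ∈ (U ∩ P) ∪ (U ∩ S)) ∨
      (u ∈ (U ∩ Q) ∪ (U ∩ S) ∧ v ∈ (U ∩ Q) ∪ (U ∩ S)) := by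
  intro u hu v hv huv
  simp only [mem_union, mem_inter]
  have h3 : ¬ (u ∈ P ∧ v ∈ Q) := fun h => hne u h.1 v h.2 huv
  have h4 : ¬ (v ∈ P ∧ u ∈ Q) := fun h => hne v h.1 u h.2 huv.symm
  have h5 := hcov u
  have h6 := hcov v
  tauto

/-- balanced separations of bounded independence number yield tree decompositions of bounded
independence number -/
theorem td_of_sep (c L m : ℕ) (hm : 2 * c ≤ m) (hm' : c < m)
    (hsep : ∀ I : Finset V, G.IsIndepSet (I : Set V) → I.card = L →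
      ∃ S P Q : Finset V, (∀ v, v ∈ S ∨ v ∈ P ∨ v ∈ Q) ∧ Disjoint P Q ∧
        Disjoint S P ∧ Disjoint S Q ∧ (∀ x ∈ P, ∀ y ∈ Q, ¬ G.Adj x y) ∧
        al G S ≤ c ∧ (I ∩ P).card + m ≤ L ∧ (I ∩ Q).card + m ≤ L) :
    ∀ U W : Finset V, W ⊆ U → al G W ≤ L → ∃ n par B, IsTD G U W (L + c) n par B := by
  have main : ∀ k : ℕ, ∀ U W : Finset V, U.card = k → W ⊆ U → al G W ≤ L →
      ∃ n par B, IsTD G U W (L + c) n par B := by
    intro k
    induction k using Nat.strong_induction_on with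
    | _ k ih =>
      intro U W hk hWU hWL
      by_cases hsmall : al G U ≤ L + c
      · exact ⟨1, _, _, IsTD.single U W hWU _ hsmall⟩
      push Not at hsmall
      obtain ⟨W', hWW', hW'U, hW'L⟩ := exists_al_eq hWU hWL (by omega : L ≤ al G U)
      obtain ⟨I, hIW', hI, hIc⟩ := exists_al (G := G) W'
      obtain ⟨S, P, Q, hcov, hPQ, hSP, hSQ, hne, hS, hIP, hIQ⟩ := hsep I hI (hIc.trans hW'L)
      have hcard : I.card ≤ (I ∩ S).card + (I ∩ P).card + (I ∩ Q).card := by
        have h1 : I ⊆ (I ∩ S) ∪ (I ∩ P) ∪ (I ∩ Q) := by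
          intro x hx
          simp only [mem_union, mem_inter]
          rcases hcov x with h | h | h
          · exact Or.inl (Or.inl ⟨hx, h⟩)
          · exact Or.inl (Or.inr ⟨hx, h⟩)
          · exact Or.inr ⟨hx, h⟩
        refine (card_le_card h1).trans ((card_union_le _ _).trans ?_)
        exact Nat.add_le_add_right (card_union_le _ _) _
      have hIS : (I ∩ S).card ≤ c :=
        (le_al inter_subset_right (indep_mono inter_subset_left hI)).trans hS
      have hIP2 : (I ∩ P).card ≤ al G (W' ∩ P) :=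
        le_al (inter_subset_inter_right hIW') (indep_mono inter_subset_left hI)
      have hIQ2 : (I ∩ Q).card ≤ al G (W' ∩ Q) :=
        le_al (inter_subset_inter_right hIW') (indep_mono inter_subset_left hI)
      have hsum : al G (W' ∩ P) + al G (W' ∩ Q) ≤ al G W' :=
        al_add_le inter_subset_left inter_subset_left
          (disjoint_of_subset_left inter_subset_right
            (disjoint_of_subset_right inter_subset_right hPQ))
          (fun x hx y hy => hne x (mem_inter.1 hx).2 y (mem_inter.1 hy).2)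
      have hSU : al G (U ∩ S) ≤ c := (al_mono inter_subset_right).trans hS
      have hPpos : (W' ∩ P).Nonempty := nonempty_of_al_pos (G := G) (by omega)
      have hQpos : (W' ∩ Q).Nonempty := nonempty_of_al_pos (G := G) (by omega)
      have hlt1 : ((U ∩ P) ∪ (U ∩ S)).card < k := by
        rw [← hk]
        apply card_lt_card
        rw [ssubset_iff_of_subset (union_subset inter_subset_left inter_subset_left)]
        obtain ⟨x, hx⟩ := hQpos
        rw [mem_inter] at hx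
        refine ⟨x, hW'U hx.1, ?_⟩
        rw [mem_union, mem_inter, mem_inter]
        rintro (⟨_, h⟩ | ⟨_, h⟩)
        · exact disjoint_left.1 hPQ h hx.2
        · exact disjoint_left.1 hSQ h hx.2
      have hlt2 : ((U ∩ Q) ∪ (U ∩ S)).card < k := by
        rw [← hk]
        apply card_lt_card
        rw [ssubset_iff_of_subset (union_subset inter_subset_left inter_subset_left)]
        obtain ⟨x, hx⟩ := hPpos
        rw [mem_inter] at hx
        refine ⟨x, hW'U hx.1, ?_⟩
        rw [mem_union, mem_inter, mem_inter]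
        rintro (⟨_, h⟩ | ⟨_, h⟩)
        · exact disjoint_left.1 hPQ hx.2 h
        · exact disjoint_left.1 hSP h hx.2
      have hW1 : al G ((W' ∩ P) ∪ (U ∩ S)) ≤ L := by
        have := al_union_le (G := G) (W' ∩ P) (U ∩ S)
        omega
      have hW2 : al G ((W' ∩ Q) ∪ (U ∩ S)) ≤ L := by
        have := al_union_le (G := G) (W' ∩ Q) (U ∩ S)
        omega
      obtain ⟨n₁, par₁, B₁, h₁⟩ := ih _ hlt1 _ ((W' ∩ P) ∪ (U ∩ S)) rfl
        (union_subset_union_left (inter_subset_inter_right hW'U)) hW1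
      obtain ⟨n₂, par₂, B₂, h₂⟩ := ih _ hlt2 _ ((W' ∩ Q) ∪ (U ∩ S)) rfl
        (union_subset_union_left (inter_subset_inter_right hW'U)) hW2
      have hUeq := set_fact1 (U := U) hcov
      refine ⟨n₁ + n₂ + 1, jpar n₁ par₁ par₂, jbag (W' ∪ (U ∩ S)) n₁ B₁ B₂, ?_⟩
      have hj := IsTD.join (W := W) (D := W' ∪ (U ∩ S)) h₁ h₂
        ((al_union_le _ _).trans (by omega)) (by rw [hUeq]; exact union_subset hW'U inter_subset_left)
        (hWW'.trans subset_union_left) (set_fact2 hSP) (set_fact2 hSQ)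
        (set_fact3 hPQ) (by rw [hUeq]; exact set_fact4 hcov hne)
      rwa [hUeq] at hj
  intro U W
  exact main _ U W rfl

/-- the tree given by a parent function -/
def parTree (n : ℕ) (par : ℕ → ℕ) : SimpleGraph (Fin n) where
  Adj i j := (0 < i.val ∧ par i.val = j.val ∧ j.val < i.val) ∨
    (0 < j.val ∧ par j.val = i.val ∧ i.val < j.val)
  symm := ⟨by intro i j h; tauto⟩
  loopless := ⟨by intro i h; rcases h with h | h <;> omega⟩

/-- every node whose bag contains `v` is joined to the top node of `v` inside the bags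
containing `v` -/
lemma IsTD.exists_walk {U W : Finset V} {C n : ℕ} {par : ℕ → ℕ} {B : ℕ → Finset V}
    (h : IsTD G U W C n par B) (v : V) (i : ℕ) (hi : i < n) (hv : v ∈ B i) :
    ∃ (k : ℕ) (hk : k < n), Top par B v k ∧
      ∃ p : (parTree n par).Walk ⟨i, hi⟩ ⟨k, hk⟩, ∀ x ∈ p.support, v ∈ B x.val := by
  induction i using Nat.strong_induction_on with
  | _ i ih =>
    by_cases ht : i = 0 ∨ v ∉ B (par i)
    · exact ⟨i, hi, ⟨hv, ht⟩, SimpleGraph.Walk.nil, by
        intro x hx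
        simp only [SimpleGraph.Walk.support_nil, List.mem_singleton] at hx
        rw [hx]; exact hv⟩
    · push Not at ht
      have hlt := h.lt i (by omega) hi
      obtain ⟨k, hk, htop, p, hp⟩ := ih (par i) hlt (hlt.trans hi) ht.2
      have hadj : (parTree n par).Adj ⟨i, hi⟩ ⟨par i, hlt.trans hi⟩ :=
        Or.inl ⟨by simp; omega, rfl, hlt⟩
      refine ⟨k, hk, htop, SimpleGraph.Walk.cons hadj p, ?_⟩
      intro x hx
      rw [SimpleGraph.Walk.support_cons, List.mem_cons] at hx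
      rcases hx with rfl | hx
      · exact hv
      · exact hp x hx

lemma parTree_isTree {n : ℕ} {par : ℕ → ℕ} (h0 : 0 < n)
    (hlt : ∀ i, 0 < i → i < n → par i < i) : (parTree n par).IsTree := by
  classical
  have hconn : (parTree n par).Connected := by
    have hreach : ∀ i : ℕ, ∀ hi : i < n, (parTree n par).Reachable ⟨i, hi⟩ ⟨0, h0⟩ := by
      intro i
      induction i using Nat.strong_induction_on with
      | _ i ih =>
        intro hi
        rcases Nat.eq_zero_or_pos i with h | h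
        · subst h; exact SimpleGraph.Reachable.refl _
        · have hl := hlt i h hi
          have hadj : (parTree n par).Adj ⟨i, hi⟩ ⟨par i, hl.trans hi⟩ := Or.inl ⟨h, rfl, hl⟩
          exact hadj.reachable.trans (ih _ hl _)
    have : Nonempty (Fin n) := ⟨⟨0, h0⟩⟩
    refine SimpleGraph.Connected.mk ?_
    intro x y
    exact (hreach x.val x.isLt).trans (hreach y.val y.isLt).symm
  rw [SimpleGraph.isTree_iff_connected_and_card]
  refine ⟨hconn, ?_⟩
  have h1 := hconn.card_vert_le_card_edgeSet_add_one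
  have h2 : Nat.card (parTree n par).edgeSet ≤ n - 1 := by
    -- every edge is the edge from some positive node to its parent
    let f : {i : Fin n // 0 < i.val} → (parTree n par).edgeSet := fun i =>
      ⟨s(i.1, ⟨par i.1.val, (hlt _ i.2 i.1.isLt).trans i.1.isLt⟩),
        Or.inl ⟨i.2, rfl, hlt _ i.2 i.1.isLt⟩⟩
    have hf : Function.Surjective f := by
      rintro ⟨e, he⟩
      induction e using Sym2.ind with
      | _ x y =>
        rw [SimpleGraph.mem_edgeSet] at he
        rcases he with ⟨h3, h4, h5⟩ | ⟨h3, h4, h5⟩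
        · refine ⟨⟨x, h3⟩, ?_⟩
          apply Subtype.ext
          simp only [f]
          congr 1
          exact Fin.ext h4
        · refine ⟨⟨y, h3⟩, ?_⟩
          apply Subtype.ext
          simp only [f]
          rw [Sym2.eq_swap]
          congr 1
          exact Fin.ext h4
    have h3 := Nat.card_le_card_of_surjective f hf
    refine h3.trans ?_
    have h4 : Nat.card {i : Fin n // 0 < i.val} = n - 1 := by
      rw [Nat.card_eq_fintype_card, Fintype.card_subtype]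
      have : (univ.filter (fun i : Fin n => 0 < i.val)) = univ.erase ⟨0, h0⟩ := by
        ext i
        simp only [mem_filter, mem_univ, true_and, mem_erase, and_true, ne_eq, Fin.ext_iff]
        omega
      rw [this, card_erase_of_mem (mem_univ _), card_univ, Fintype.card_fin]
    omega
  have hn : Nat.card (Fin n) = n := by simp
  rw [hn] at h1 ⊢
  omega

/-- conversion to a tree decomposition indexed by a tree -/
theorem IsTD.exists_tree {C n : ℕ} {par : ℕ → ℕ} {B : ℕ → Finset V} {W : Finset V}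
    (h : IsTD G univ W C n par B) :
    (parTree n par).IsTree ∧ (∀ v : V, ∃ i : Fin n, v ∈ B i) ∧
      (∀ u v : V, G.Adj u v → ∃ i : Fin n, u ∈ B i ∧ v ∈ B i) ∧
      (∀ v : V, ∀ i j : Fin n, v ∈ B i → v ∈ B j →
        ∃ p : (parTree n par).Walk i j, ∀ x ∈ p.support, v ∈ B x) ∧
      (∀ i : Fin n, ∀ S : Finset V, S ⊆ B i → G.IsIndepSet (S : Set V) → S.card ≤ C) := by
  refine ⟨parTree_isTree h.pos h.lt, ?_, ?_, ?_, ?_⟩
  · intro v
    obtain ⟨i, hi, hv⟩ := h.cov v (mem_univ _)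
    exact ⟨⟨i, hi⟩, hv⟩
  · intro u v huv
    obtain ⟨i, hi, hv⟩ := h.edge u (mem_univ _) v (mem_univ _) huv
    exact ⟨⟨i, hi⟩, hv⟩
  · intro v i j hi hj
    obtain ⟨k, hk, htop, p, hp⟩ := h.exists_walk v i.val i.isLt hi
    obtain ⟨l, hl, htop', q, hq⟩ := h.exists_walk v j.val j.isLt hj
    have hkl : k = l := h.top v k l hk hl htop htop'
    subst hkl
    refine ⟨p.append q.reverse, ?_⟩
    intro x hx
    rw [SimpleGraph.Walk.mem_support_append_iff] at hx
    rcases hx with hx | hx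
    · exact hp x hx
    · rw [SimpleGraph.Walk.support_reverse, List.mem_reverse] at hx
      exact hq x hx
  · intro i S hS hi
    exact (le_al hS hi).trans (h.wid i.val i.isLt)

end Pool.Agent.H112R3.TA
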